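import Mathlib

open Filter Topology

noncomputable section

set_option linter.unusedSectionVars false
set_option linter.unusedVariables false

namespace Pool.Agent.Lib.MP_759ce5_an

/-- The relations between the Cuntz isometries and the four Grigorchuk generators. -/
structure GSys (B : Type*) [NormedRing B] [StarRing B] where
  S : Bool → B
  a : B
  b : B
  c : B
  d : B
  SS : ∀ i, star (S i) * S i = 1
  S01 : star (S false) * S true = 0
  S10 : star (S true) * S false = 0
  sum : S false * star (S false) + S true * star (S true) = 1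
  sa : star a = a
  sb : star b = b
  sc : star c = c
  sd : star d = d
  aa : a * a = 1
  bb : b * b = 1
  cc : c * c = 1
  dd : d * d = 1
  bc : b * c = d
  cb : c * b = d
  aS0 : a * S false = S true
  aS1 : a * S true = S false
  bS0 : b * S false = S false * a
  bS1 : b * S true = S true * c
  cS0 : c * S false = S false * a
  cS1 : c * S true = S true * d
  dS0 : d * S false = S false
  dS1 : d * S true = S true * b

namespace GSys

variable {B : Type*} [NormedRing B] [StarRing B] (G : GSys B)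

/-- The four generators. -/
def gens : Set B := {G.a, G.b, G.c, G.d}

theorem ext_S {X Y : B} (h0 : X * G.S false = Y * G.S false) (h1 : X * G.S true = Y * G.S true) :
    X = Y := by
  have hX : X = X * G.S false * star (G.S false) + X * G.S true * star (G.S true) := by
    rw [mul_assoc, mul_assoc, ← mul_add, G.sum, mul_one]
  have hY : Y = Y * G.S false * star (G.S false) + Y * G.S true * star (G.S true) := by
    rw [mul_assoc, mul_assoc, ← mul_add, G.sum, mul_one]
  rw [hX, hY, h0, h1]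

/-- Word isometries. -/
def Sw : List Bool → B
  | [] => 1
  | (i :: v) => G.S i * Sw v

@[simp] theorem Sw_nil : G.Sw [] = 1 := rfl

@[simp] theorem Sw_cons (i : Bool) (v : List Bool) : G.Sw (i :: v) = G.S i * G.Sw v := rfl

theorem Sw_append (v w : List Bool) : G.Sw (v ++ w) = G.Sw v * G.Sw w := by
  induction v with
  | nil => simp
  | cons i v ih => simp [ih, mul_assoc]

theorem star_Sw_mul (v w : List Bool) (h : v.length = w.length) :
    star (G.Sw v) * G.Sw w = 0 ∨ star (G.Sw v) * G.Sw w = 1 := by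
  induction v generalizing w with
  | nil =>
    cases w with
    | nil => right; simp
    | cons j w => simp at h
  | cons i v ih =>
    cases w with
    | nil => simp at h
    | cons j w =>
      have h' : v.length = w.length := by simpa using h
      have key : star (G.Sw (i :: v)) * G.Sw (j :: w)
          = star (G.Sw v) * (star (G.S i) * G.S j) * G.Sw w := by
        simp [mul_assoc]
      rw [key]
      cases i <;> cases j
      · rw [G.SS]; simpa using ih w h'
      · rw [G.S01]; left; simp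
      · rw [G.S10]; left; simp
      · rw [G.SS]; simpa using ih w h'

theorem star_Sw_mul_self (v : List Bool) : star (G.Sw v) * G.Sw v = 1 := by
  induction v with
  | nil => simp
  | cons i v ih =>
    have key : star (G.Sw (i :: v)) * G.Sw (i :: v)
          = star (G.Sw v) * (star (G.S i) * G.S i) * G.Sw v := by
        simp [mul_assoc]
    rw [key, G.SS, mul_one, ih]

/-- Generators are self-adjoint. -/
theorem star_gens {g : B} (hg : g ∈ G.gens) : star g = g := by
  rcases hg with rfl | rfl | rfl | rfl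
  exacts [G.sa, G.sb, G.sc, G.sd]

theorem bd : G.b * G.d = G.d * G.b := by
  rw [← G.bc, ← mul_assoc, G.bb, one_mul]
  rw [G.bc, ← G.cb, mul_assoc, G.bb, mul_one]

theorem ad4 : (G.a * G.d) ^ 4 = 1 := by
  have h2 : ∀ i, (G.a * G.d) * (G.a * G.d) * G.S i = G.S i * G.b := by
    intro i
    cases i
    · calc (G.a * G.d) * (G.a * G.d) * G.S false
          = G.a * (G.d * (G.a * (G.d * G.S false))) := by simp [mul_assoc]
        _ = G.S false * G.b := by
          rw [G.dS0, G.aS0, G.dS1, ← mul_assoc, G.aS1]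
    · calc (G.a * G.d) * (G.a * G.d) * G.S true
          = G.a * (G.d * (G.a * (G.d * G.S true))) := by simp [mul_assoc]
        _ = G.S true * G.b := by
          rw [G.dS1, ← mul_assoc G.a (G.S true), G.aS1, ← mul_assoc G.d (G.S false), G.dS0,
            ← mul_assoc, G.aS0]
  have h4 : ∀ i, (G.a * G.d) ^ 4 * G.S i = 1 * G.S i := by
    intro i
    calc (G.a * G.d) ^ 4 * G.S i
        = (G.a * G.d) * (G.a * G.d) * ((G.a * G.d) * (G.a * G.d) * G.S i) := by
          simp [pow_succ, mul_assoc]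
      _ = 1 * G.S i := by
          rw [h2, ← mul_assoc, h2, mul_assoc, G.bb, mul_one, one_mul]
  exact G.ext_S (h4 false) (h4 true)

/-- The algebra generated by the generators. -/
def A0 [Algebra ℂ B] : Subalgebra ℂ B := Algebra.adjoin ℂ G.gens

section alg

variable [Algebra ℂ B]

theorem a_mem : G.a ∈ G.A0 := Algebra.subset_adjoin (by simp [gens])
theorem b_mem : G.b ∈ G.A0 := Algebra.subset_adjoin (by simp [gens])
theorem c_mem : G.c ∈ G.A0 := Algebra.subset_adjoin (by simp [gens])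
theorem d_mem : G.d ∈ G.A0 := Algebra.subset_adjoin (by simp [gens])

theorem A0_induction {p : B → Prop} (ha : p G.a) (hb : p G.b) (hc : p G.c) (hd : p G.d)
    (halg : ∀ r : ℂ, p (algebraMap ℂ B r)) (hadd : ∀ x y, p x → p y → p (x + y))
    (hmul : ∀ x y, x ∈ G.A0 → y ∈ G.A0 → p x → p y → p (x * y)) {x : B} (hx : x ∈ G.A0) : p x := by
  refine Algebra.adjoin_induction (s := G.gens) (p := fun x _ => p x) ?_ ?_ ?_ ?_ hx
  · rintro x (rfl | rfl | rfl | rfl) <;> assumption
  · exact halg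
  · intro x y _ _ h1 h2; exact hadd x y h1 h2
  · intro x y hx hy h1 h2; exact hmul x y hx hy h1 h2

theorem star_mem_A0 [StarModule ℂ B] {x : B} (hx : x ∈ G.A0) : star x ∈ G.A0 := by
  refine G.A0_induction (p := fun x => star x ∈ G.A0) ?_ ?_ ?_ ?_ ?_ ?_ ?_ hx
  · rw [G.sa]; exact G.a_mem
  · rw [G.sb]; exact G.b_mem
  · rw [G.sc]; exact G.c_mem
  · rw [G.sd]; exact G.d_mem
  · intro r; rw [← algebraMap_star_comm]; exact G.A0.algebraMap_mem _
  · intro x y h1 h2; rw [star_add]; exact G.A0.add_mem h1 h2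
  · intro x y _ _ h1 h2; rw [star_mul]; exact G.A0.mul_mem h2 h1

/-- self-replicating property -/
theorem selfrep {z : B} (hz : z ∈ G.A0) (i : Bool) : ∃ h ∈ G.A0, G.S i * z = h * G.S i := by
  revert i
  refine G.A0_induction (p := fun z => ∀ i, ∃ h ∈ G.A0, G.S i * z = h * G.S i)
    ?_ ?_ ?_ ?_ ?_ ?_ ?_ hz
  · intro i
    cases i
    · exact ⟨G.b, G.b_mem, G.bS0.symm⟩
    · refine ⟨G.a * G.b * G.a, G.A0.mul_mem (G.A0.mul_mem G.a_mem G.b_mem) G.a_mem, ?_⟩
      rw [mul_assoc, G.aS1, mul_assoc, G.bS0, ← mul_assoc, G.aS0]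
  · intro i
    cases i
    · refine ⟨G.a * G.d * G.a, G.A0.mul_mem (G.A0.mul_mem G.a_mem G.d_mem) G.a_mem, ?_⟩
      rw [mul_assoc, G.aS0, mul_assoc, G.dS1, ← mul_assoc, G.aS1]
    · exact ⟨G.d, G.d_mem, G.dS1.symm⟩
  · intro i
    cases i
    · refine ⟨G.a * G.b * G.a, G.A0.mul_mem (G.A0.mul_mem G.a_mem G.b_mem) G.a_mem, ?_⟩
      rw [mul_assoc, G.aS0, mul_assoc, G.bS1, ← mul_assoc, G.aS1]
    · exact ⟨G.b, G.b_mem, G.bS1.symm⟩
  · intro i
    cases i
    · refine ⟨G.a * G.c * G.a, G.A0.mul_mem (G.A0.mul_mem G.a_mem G.c_mem) G.a_mem, ?_⟩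
      rw [mul_assoc, G.aS0, mul_assoc, G.cS1, ← mul_assoc, G.aS1]
    · exact ⟨G.c, G.c_mem, G.cS1.symm⟩
  · intro r i
    exact ⟨algebraMap ℂ B r, G.A0.algebraMap_mem r, (Algebra.commutes r _).symm⟩
  · intro x y hx hy i
    obtain ⟨h1, m1, e1⟩ := hx i
    obtain ⟨h2, m2, e2⟩ := hy i
    exact ⟨h1 + h2, G.A0.add_mem m1 m2, by rw [mul_add, add_mul, e1, e2]⟩
  · intro x y _ _ hx hy i
    obtain ⟨h1, m1, e1⟩ := hx i
    obtain ⟨h2, m2, e2⟩ := hy i
    exact ⟨h1 * h2, G.A0.mul_mem m1 m2, by rw [← mul_assoc, e1, mul_assoc, e2, mul_assoc]⟩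

theorem selfrep_word {z : B} (hz : z ∈ G.A0) (v : List Bool) :
    ∃ h ∈ G.A0, G.Sw v * z = h * G.Sw v := by
  induction v with
  | nil => exact ⟨z, hz, by simp⟩
  | cons i v ih =>
    obtain ⟨h1, m1, e1⟩ := ih
    obtain ⟨h2, m2, e2⟩ := G.selfrep m1 i
    refine ⟨h2, m2, ?_⟩
    rw [Sw_cons, mul_assoc, e1, ← mul_assoc, e2, mul_assoc]

theorem selfrep_star [StarModule ℂ B] {z : B} (hz : z ∈ G.A0) (v : List Bool) :
    ∃ h ∈ G.A0, z * star (G.Sw v) = star (G.Sw v) * h := by
  obtain ⟨h, m, e⟩ := G.selfrep_word (G.star_mem_A0 hz) v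
  refine ⟨star h, G.star_mem_A0 m, ?_⟩
  have := congrArg star e
  simpa using this

/-- transitivity on levels -/
theorem transit (v w : List Bool) (h : v.length = w.length) :
    ∃ g ∈ G.A0, G.Sw w = g * G.Sw v := by
  induction v generalizing w with
  | nil =>
    cases w with
    | nil => exact ⟨1, G.A0.one_mem, by simp⟩
    | cons j w => simp at h
  | cons i v ih =>
    cases w with
    | nil => simp at h
    | cons j w =>
      have h' : v.length = w.length := by simpa using h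
      obtain ⟨g1, m1, e1⟩ := ih w h'
      obtain ⟨g2, m2, e2⟩ := G.selfrep m1 i
      have e3 : G.S i * G.Sw w = g2 * (G.S i * G.Sw v) := by
        rw [e1, ← mul_assoc, e2, mul_assoc]
      by_cases hij : i = j
      · subst hij
        exact ⟨g2, m2, e3⟩
      · have hSj : G.S j = G.a * G.S i := by
          cases i <;> cases j <;> simp_all [G.aS0, G.aS1]
        refine ⟨G.a * g2, G.A0.mul_mem G.a_mem m2, ?_⟩
        rw [Sw_cons, Sw_cons, hSj, mul_assoc, e3, mul_assoc]

theorem star_S_mul_S (i j : Bool) : star (G.S i) * G.S j = 0 ∨ star (G.S i) * G.S j = 1 := by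
  cases i <;> cases j
  · right; exact G.SS _
  · left; exact G.S01
  · left; exact G.S10
  · right; exact G.SS _

theorem compress_aux {i k : Bool} {h : B} (hh : h ∈ G.A0) : star (G.S i) * (G.S k * h) ∈ G.A0 := by
  rw [← mul_assoc]
  rcases G.star_S_mul_S i k with h0 | h0 <;> rw [h0]
  · simp
  · simpa using hh

theorem compress0 {z : B} (hz : z ∈ G.A0) (i j : Bool) : star (G.S i) * z * G.S j ∈ G.A0 := by
  revert i j
  refine G.A0_induction (p := fun z => ∀ i j, star (G.S i) * z * G.S j ∈ G.A0)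
    ?_ ?_ ?_ ?_ ?_ ?_ ?_ hz
  · intro i j
    rw [mul_assoc]
    cases j
    · rw [G.aS0, ← mul_one (G.S true)]; exact G.compress_aux G.A0.one_mem
    · rw [G.aS1, ← mul_one (G.S false)]; exact G.compress_aux G.A0.one_mem
  · intro i j
    rw [mul_assoc]
    cases j
    · rw [G.bS0]; exact G.compress_aux G.a_mem
    · rw [G.bS1]; exact G.compress_aux G.c_mem
  · intro i j
    rw [mul_assoc]
    cases j
    · rw [G.cS0]; exact G.compress_aux G.a_mem
    · rw [G.cS1]; exact G.compress_aux G.d_mem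
  · intro i j
    rw [mul_assoc]
    cases j
    · rw [G.dS0, ← mul_one (G.S false)]; exact G.compress_aux G.A0.one_mem
    · rw [G.dS1]; exact G.compress_aux G.b_mem
  · intro r i j
    rw [mul_assoc, Algebra.commutes]
    exact G.compress_aux (G.A0.algebraMap_mem r)
  · intro x y hx hy i j
    rw [mul_add, add_mul]
    exact G.A0.add_mem (hx i j) (hy i j)
  · intro x y _ _ hx hy i j
    have key : star (G.S i) * (x * y) * G.S j
        = (star (G.S i) * x * G.S false) * (star (G.S false) * y * G.S j)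
          + (star (G.S i) * x * G.S true) * (star (G.S true) * y * G.S j) := by
      calc star (G.S i) * (x * y) * G.S j = star (G.S i) * x * 1 * (y * G.S j) := by
            simp [mul_assoc]
        _ = _ := by
            rw [← G.sum]
            noncomm_ring
    rw [key]
    exact G.A0.add_mem (G.A0.mul_mem (hx _ _) (hy _ _)) (G.A0.mul_mem (hx _ _) (hy _ _))

end alg

section top

variable [NormedAlgebra ℂ B] [StarModule ℂ B] [ContinuousStar B]

/-- The closed algebra generated by the generators. -/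
def A : Subalgebra ℂ B := G.A0.topologicalClosure

theorem A0_le : G.A0 ≤ G.A := G.A0.le_topologicalClosure

theorem isClosed_A : IsClosed (G.A : Set B) := G.A0.isClosed_topologicalClosure

theorem A_eq_closure : (G.A : Set B) = closure (G.A0 : Set B) := rfl

theorem mem_A_of_A0 {f : B → B} (hf : Continuous f) (h : ∀ z ∈ G.A0, f z ∈ G.A) {x : B}
    (hx : x ∈ G.A) : f x ∈ G.A := by
  have hx' : x ∈ closure (G.A0 : Set B) := hx
  have : f x ∈ closure (G.A : Set B) := map_mem_closure hf hx' (fun z hz => h z hz)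
  rwa [G.isClosed_A.closure_eq] at this

theorem star_mem_A {x : B} (hx : x ∈ G.A) : star x ∈ G.A :=
  G.mem_A_of_A0 continuous_star (fun z hz => G.A0_le (G.star_mem_A0 hz)) hx

theorem compress {x : B} (hx : x ∈ G.A) (i j : Bool) : star (G.S i) * x * G.S j ∈ G.A :=
  G.mem_A_of_A0 (f := fun x => star (G.S i) * x * G.S j) (by fun_prop)
    (fun z hz => G.A0_le (G.compress0 hz i j)) hx

theorem compress_word {x : B} (hx : x ∈ G.A) (v w : List Bool) (h : v.length = w.length) :
    star (G.Sw v) * x * G.Sw w ∈ G.A := by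
  induction v generalizing w x with
  | nil =>
    cases w with
    | nil => simpa using hx
    | cons j w => simp at h
  | cons i v ih =>
    cases w with
    | nil => simp at h
    | cons j w =>
      have h' : v.length = w.length := by simpa using h
      have key : star (G.Sw (i :: v)) * x * G.Sw (j :: w)
          = star (G.Sw v) * (star (G.S i) * x * G.S j) * G.Sw w := by
        simp [mul_assoc]
      rw [key]
      exact ih (G.compress hx i j) w h'

/-- Ideals as submodules of `B`. -/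
structure IsIdl (J : Submodule ℂ B) : Prop where
  le : J ≤ Subalgebra.toSubmodule G.A
  closed : IsClosed (J : Set B)
  mul_left : ∀ x ∈ G.A0, ∀ y ∈ J, x * y ∈ J
  mul_right : ∀ x ∈ G.A0, ∀ y ∈ J, y * x ∈ J

theorem IsIdl.mul_left' {G : GSys B} {J : Submodule ℂ B} (hJ : G.IsIdl J) {x y : B} (hx : x ∈ G.A)
    (hy : y ∈ J) : x * y ∈ J := by
  have hx' : x ∈ closure (G.A0 : Set B) := hx
  have : x * y ∈ closure (J : Set B) :=
    map_mem_closure (f := fun x => x * y) (by fun_prop) hx' (fun z hz => hJ.mul_left z hz y hy)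
  rwa [hJ.closed.closure_eq] at this

theorem IsIdl.mul_right' {G : GSys B} {J : Submodule ℂ B} (hJ : G.IsIdl J) {x y : B}
    (hx : x ∈ G.A) (hy : y ∈ J) : y * x ∈ J := by
  have hx' : x ∈ closure (G.A0 : Set B) := hx
  have : y * x ∈ closure (J : Set B) :=
    map_mem_closure (f := fun x => y * x) (by fun_prop) hx' (fun z hz => hJ.mul_right z hz y hy)
  rwa [hJ.closed.closure_eq] at this

/-- the element `(ab)^2` -/
def t : B := G.a * G.b * (G.a * G.b)

/-- the inverse of `t` -/
def tinv : B := G.b * G.a * (G.b * G.a)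

theorem t_mul_tinv : G.t * G.tinv = 1 := by
  unfold t tinv
  have : G.a * G.b * (G.a * G.b) * (G.b * G.a * (G.b * G.a))
      = G.a * (G.b * (G.a * ((G.b * G.b) * G.a) * G.b) * G.a) := by simp only [mul_assoc]
  rw [this, G.bb, one_mul, G.aa, one_mul, G.bb, one_mul, G.aa]

theorem tinv_mul_t : G.tinv * G.t = 1 := by
  unfold t tinv
  have : G.b * G.a * (G.b * G.a) * (G.a * G.b * (G.a * G.b))
      = G.b * (G.a * (G.b * ((G.a * G.a) * G.b) * G.a) * G.b) := by simp only [mul_assoc]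
  rw [this, G.aa, one_mul, G.bb, one_mul, G.aa, one_mul, G.bb]

theorem t_mem : G.t ∈ G.A0 :=
  G.A0.mul_mem (G.A0.mul_mem G.a_mem G.b_mem) (G.A0.mul_mem G.a_mem G.b_mem)

theorem tinv_mem : G.tinv ∈ G.A0 :=
  G.A0.mul_mem (G.A0.mul_mem G.b_mem G.a_mem) (G.A0.mul_mem G.b_mem G.a_mem)

theorem isIdl_A : G.IsIdl (Subalgebra.toSubmodule G.A) where
  le := le_rfl
  closed := G.isClosed_A
  mul_left := fun x hx y hy => G.A.mul_mem (G.A0_le hx) hy
  mul_right := fun x hx y hy => G.A.mul_mem hy (G.A0_le hx)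

/-- the element `ad` -/
def r : B := G.a * G.d

theorem r_mem : G.r ∈ G.A0 := G.A0.mul_mem G.a_mem G.d_mem

theorem r_mul_da : G.r * (G.d * G.a) = 1 := by
  unfold r
  calc G.a * G.d * (G.d * G.a) = G.a * (G.d * G.d) * G.a := by simp only [mul_assoc]
    _ = 1 := by rw [G.dd, mul_one, G.aa]

theorem r4 : G.r ^ 4 = 1 := G.ad4

theorem r3 : G.r ^ 3 = G.d * G.a := by
  calc G.r ^ 3 = G.r ^ 3 * (G.r * (G.d * G.a)) := by rw [G.r_mul_da, mul_one]
    _ = G.r ^ 4 * (G.d * G.a) := by rw [← mul_assoc, ← pow_succ]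
    _ = G.d * G.a := by rw [G.r4, one_mul]

theorem semiconj_a_r : SemiconjBy G.a G.r (G.r ^ 3) := by
  unfold SemiconjBy
  rw [G.r3, mul_assoc, G.aa, mul_one]
  unfold r
  rw [← mul_assoc, G.aa, one_mul]

/-- the finite dimensional complement -/
def F16 : Submodule ℂ B :=
  Submodule.span ℂ (Set.range (fun p : Fin 4 × Fin 2 × Fin 2 =>
    G.r ^ (p.1 : ℕ) * G.a ^ (p.2.1 : ℕ) * G.b ^ (p.2.2 : ℕ)))

instance : FiniteDimensional ℂ G.F16 := by
  unfold F16
  exact FiniteDimensional.span_of_finite ℂ (Set.finite_range _)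

theorem mem_F16 (n l i : ℕ) : G.r ^ n * G.a ^ l * G.b ^ i ∈ G.F16 := by
  have h1 : G.r ^ n = G.r ^ (n % 4) := pow_eq_pow_mod n G.r4
  have h2 : G.a ^ l = G.a ^ (l % 2) := pow_eq_pow_mod l (by rw [pow_two, G.aa])
  have h3 : G.b ^ i = G.b ^ (i % 2) := pow_eq_pow_mod i (by rw [pow_two, G.bb])
  rw [h1, h2, h3]
  refine Submodule.subset_span ⟨(⟨n % 4, Nat.mod_lt _ (by norm_num)⟩,
    ⟨l % 2, Nat.mod_lt _ (by norm_num)⟩, ⟨i % 2, Nat.mod_lt _ (by norm_num)⟩), rfl⟩

theorem a_mul_F16 (n l i : ℕ) : G.a * (G.r ^ n * G.a ^ l * G.b ^ i) ∈ G.F16 := by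
  have h : G.a * G.r ^ n = (G.r ^ 3) ^ n * G.a := (G.semiconj_a_r.pow_right n)
  have : G.a * (G.r ^ n * G.a ^ l * G.b ^ i) = G.r ^ (3 * n) * G.a ^ (l + 1) * G.b ^ i := by
    rw [← mul_assoc, ← mul_assoc, h, ← pow_mul, pow_succ', ← mul_assoc, ]
  rw [this]
  exact G.mem_F16 _ _ _

theorem d_mul_F16 (n l i : ℕ) : G.d * (G.r ^ n * G.a ^ l * G.b ^ i) ∈ G.F16 := by
  have : G.d * (G.r ^ n * G.a ^ l * G.b ^ i)
      = G.a * (G.r ^ (n + 1) * G.a ^ l * G.b ^ i) := by
    have hd : G.d = G.a * G.r := by unfold r; rw [← mul_assoc, G.aa, one_mul]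
    rw [pow_succ' G.r n]
    conv_lhs => rw [hd]
    simp only [mul_assoc]
  rw [this]
  exact G.a_mul_F16 _ _ _

theorem comm_b {J : Submodule ℂ B} (hJ : G.IsIdl J) (ht : G.t - 1 ∈ J) (n l : ℕ) :
    G.b * (G.r ^ n * G.a ^ l) - (G.r ^ n * G.a ^ l) * G.b ∈ J := by
  have hmul : ∀ x y : B, x ∈ G.A0 → y ∈ G.A0 → G.b * x - x * G.b ∈ J → G.b * y - y * G.b ∈ J →
      G.b * (x * y) - x * y * G.b ∈ J := by
    intro x y hx hy h1 h2
    have : G.b * (x * y) - x * y * G.b = (G.b * x - x * G.b) * y + x * (G.b * y - y * G.b) := by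
      noncomm_ring
    rw [this]
    exact J.add_mem (hJ.mul_right _ hy _ h1) (hJ.mul_left _ hx _ h2)
  have h1 : G.b * 1 - 1 * G.b ∈ J := by simp
  have ha : G.b * G.a - G.a * G.b ∈ J := by
    have e : G.b * G.a - G.a * G.b = -((G.t - 1) * (G.b * G.a)) := by
      have : G.t * (G.b * G.a) = G.a * G.b := by
        unfold t
        calc G.a * G.b * (G.a * G.b) * (G.b * G.a)
            = G.a * G.b * (G.a * ((G.b * G.b) * G.a)) := by simp only [mul_assoc]
          _ = G.a * G.b := by rw [G.bb, one_mul, G.aa, mul_one]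
      rw [sub_mul, this, one_mul]; abel
    rw [e]
    exact J.neg_mem (hJ.mul_right _ (G.A0.mul_mem G.b_mem G.a_mem) _ ht)
  have hd : G.b * G.d - G.d * G.b ∈ J := by rw [G.bd, sub_self]; exact J.zero_mem
  have hr : G.b * G.r - G.r * G.b ∈ J := hmul _ _ G.a_mem G.d_mem ha hd
  have hrn : ∀ n : ℕ, G.b * G.r ^ n - G.r ^ n * G.b ∈ J := by
    intro n
    induction n with
    | zero => simp
    | succ n ih =>
      rw [pow_succ]
      exact hmul _ _ (G.A0.pow_mem G.r_mem n) G.r_mem ih hr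
  have han : ∀ n : ℕ, G.b * G.a ^ n - G.a ^ n * G.b ∈ J := by
    intro n
    induction n with
    | zero => simp
    | succ n ih =>
      rw [pow_succ]
      exact hmul _ _ (G.A0.pow_mem G.a_mem n) G.a_mem ih ha
  exact hmul _ _ (G.A0.pow_mem G.r_mem n) (G.A0.pow_mem G.a_mem l) (hrn n) (han l)

theorem fincodim {J : Submodule ℂ B} (hJ : G.IsIdl J) (ht : G.t - 1 ∈ J) :
    ∃ F : Submodule ℂ B, FiniteDimensional ℂ F ∧ Subalgebra.toSubmodule G.A ≤ J ⊔ F := by
  refine ⟨G.F16, inferInstance, ?_⟩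
  have stable : ∀ g ∈ G.A0, (∀ n l i : ℕ, g * (G.r ^ n * G.a ^ l * G.b ^ i) ∈ J ⊔ G.F16) →
      ∀ y ∈ J ⊔ G.F16, g * y ∈ J ⊔ G.F16 := by
    intro g hg h y hy
    obtain ⟨j, hj, f, hf, rfl⟩ := Submodule.mem_sup.1 hy
    rw [mul_add]
    refine Submodule.add_mem _ (Submodule.mem_sup_left (hJ.mul_left _ hg _ hj)) ?_
    refine Submodule.span_induction (p := fun f _ => g * f ∈ J ⊔ G.F16) ?_ ?_ ?_ ?_ hf
    · rintro _ ⟨p, rfl⟩
      exact h _ _ _
    · simp
    · intro x y _ _ hx hy
      rw [mul_add]; exact Submodule.add_mem _ hx hy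
    · intro c x _ hx
      rw [mul_smul_comm]; exact Submodule.smul_mem _ _ hx
  have hsa : ∀ y ∈ J ⊔ G.F16, G.a * y ∈ J ⊔ G.F16 :=
    stable _ G.a_mem (fun n l i => Submodule.mem_sup_right (G.a_mul_F16 n l i))
  have hsd : ∀ y ∈ J ⊔ G.F16, G.d * y ∈ J ⊔ G.F16 :=
    stable _ G.d_mem (fun n l i => Submodule.mem_sup_right (G.d_mul_F16 n l i))
  have hsb : ∀ y ∈ J ⊔ G.F16, G.b * y ∈ J ⊔ G.F16 := by
    refine stable _ G.b_mem (fun n l i => ?_)
    have e : G.b * (G.r ^ n * G.a ^ l * G.b ^ i)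
        = (G.b * (G.r ^ n * G.a ^ l) - (G.r ^ n * G.a ^ l) * G.b) * G.b ^ i
          + G.r ^ n * G.a ^ l * G.b ^ (i + 1) := by
      rw [pow_succ' G.b i]
      noncomm_ring
    rw [e]
    exact Submodule.add_mem _ (Submodule.mem_sup_left
      (hJ.mul_right _ (G.A0.pow_mem G.b_mem i) _ (G.comm_b hJ ht n l)))
      (Submodule.mem_sup_right (G.mem_F16 _ _ _))
  have hsc : ∀ y ∈ J ⊔ G.F16, G.c * y ∈ J ⊔ G.F16 := by
    intro y hy
    have : G.c * y = G.b * (G.d * y) := by
      rw [← mul_assoc, ← G.bc, ← mul_assoc, G.bb, one_mul]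
    rw [this]
    exact hsb _ (hsd _ hy)
  have hall : ∀ x ∈ G.A0, ∀ y ∈ J ⊔ G.F16, x * y ∈ J ⊔ G.F16 := by
    intro x hx
    refine G.A0_induction (p := fun x => ∀ y ∈ J ⊔ G.F16, x * y ∈ J ⊔ G.F16)
      hsa hsb hsc hsd ?_ ?_ ?_ hx
    · intro r y hy
      rw [← Algebra.smul_def]
      exact Submodule.smul_mem _ _ hy
    · intro x z hx hz y hy
      rw [add_mul]; exact Submodule.add_mem _ (hx y hy) (hz y hy)
    · intro x z _ _ hx hz y hy
      rw [mul_assoc]; exact hx _ (hz _ hy)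
  have h1 : (1 : B) ∈ J ⊔ G.F16 := by
    refine Submodule.mem_sup_right ?_
    simpa using G.mem_F16 0 0 0
  have hcl : IsClosed ((J ⊔ G.F16 : Submodule ℂ B) : Set B) :=
    Submodule.isClosed_sup_finiteDimensional _ _ hJ.closed
  intro x hx
  have hx' : x ∈ closure (G.A0 : Set B) := hx
  have : x ∈ closure ((J ⊔ G.F16 : Submodule ℂ B) : Set B) := by
    refine closure_mono ?_ hx'
    intro z hz
    simpa using hall z hz 1 h1
  rwa [hcl.closure_eq] at this

/-- elements `y` of the closed algebra whose placements on level `n` all lie in `J` -/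
def pull (n : ℕ) (J : Submodule ℂ B) : Submodule ℂ B where
  carrier := {y | y ∈ G.A ∧ ∀ u w : List Bool, u.length = n → w.length = n →
    G.Sw u * y * star (G.Sw w) ∈ J}
  add_mem' := by
    rintro x y ⟨hx, hx'⟩ ⟨hy, hy'⟩
    refine ⟨G.A.add_mem hx hy, fun u w hu hw => ?_⟩
    rw [mul_add, add_mul]
    exact J.add_mem (hx' u w hu hw) (hy' u w hu hw)
  zero_mem' := ⟨G.A.zero_mem, fun u w hu hw => by simp⟩
  smul_mem' := by
    rintro c x ⟨hx, hx'⟩
    refine ⟨G.A.smul_mem hx c, fun u w hu hw => ?_⟩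
    rw [mul_smul_comm, smul_mul_assoc]
    exact J.smul_mem _ (hx' u w hu hw)

theorem mem_pull {n : ℕ} {J : Submodule ℂ B} {y : B} : y ∈ G.pull n J ↔
    y ∈ G.A ∧ ∀ u w : List Bool, u.length = n → w.length = n →
    G.Sw u * y * star (G.Sw w) ∈ J := Iff.rfl

theorem isIdl_pull {J : Submodule ℂ B} (hJ : G.IsIdl J) (n : ℕ) : G.IsIdl (G.pull n J) where
  le := fun x hx => hx.1
  closed := by
    have : ((G.pull n J : Submodule ℂ B) : Set B) = (G.A : Set B) ∩
        ⋂ (u : List Bool) (w : List Bool) (_ : u.length = n) (_ : w.length = n),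
          (fun y => G.Sw u * y * star (G.Sw w)) ⁻¹' (J : Set B) := by
      ext y
      simp only [SetLike.mem_coe, mem_pull, Set.mem_inter_iff, Set.mem_iInter, Set.mem_preimage]
    rw [this]
    refine G.isClosed_A.inter ?_
    refine isClosed_iInter fun u => isClosed_iInter fun w => isClosed_iInter fun _ =>
      isClosed_iInter fun _ => hJ.closed.preimage (by fun_prop)
  mul_left := by
    rintro x hx y ⟨hy, hy'⟩
    refine ⟨G.A.mul_mem (G.A0_le hx) hy, fun u w hu hw => ?_⟩
    obtain ⟨h, hh, e⟩ := G.selfrep_word hx u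
    rw [← mul_assoc, e, mul_assoc, mul_assoc, ← mul_assoc (G.Sw u)]
    exact hJ.mul_left _ hh _ (hy' u w hu hw)
  mul_right := by
    rintro x hx y ⟨hy, hy'⟩
    refine ⟨G.A.mul_mem hy (G.A0_le hx), fun u w hu hw => ?_⟩
    obtain ⟨h, hh, e⟩ := G.selfrep_star hx w
    rw [← mul_assoc, mul_assoc, e, ← mul_assoc]
    exact hJ.mul_right _ hh _ (hy' u w hu hw)

theorem t0_eq : G.S false * (G.t - 1) * star (G.S false)
    = -(G.tinv * G.r * G.tinv * (G.t - 1) * (G.d * G.a)) - G.tinv * (G.t - 1) * 1 := by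
  have e1 : -(G.tinv * G.r * G.tinv * (G.t - 1) * (G.d * G.a)) - G.tinv * (G.t - 1) * 1
      = G.tinv * G.r * G.tinv * (G.d * G.a) - 1 := by
    have : G.tinv * G.r * G.tinv * (G.t - 1) = G.tinv * G.r - G.tinv * G.r * G.tinv := by
      rw [mul_sub, mul_one, mul_assoc _ G.tinv G.t, G.tinv_mul_t, mul_one]
    rw [this, mul_sub, G.tinv_mul_t]
    have h2 : G.tinv * G.r * (G.d * G.a) = G.tinv := by rw [mul_assoc, G.r_mul_da, mul_one]
    rw [sub_mul, h2, mul_one, mul_one]
    abel
  rw [e1]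
  have hdaS0 : G.d * G.a * G.S false = G.S true * G.b := by rw [mul_assoc, G.aS0, G.dS1]
  have hdaS1 : G.d * G.a * G.S true = G.S false := by rw [mul_assoc, G.aS1, G.dS0]
  have htS1 : G.tinv * G.S true = G.S true * (G.c * G.a) := by
    unfold tinv
    calc G.b * G.a * (G.b * G.a) * G.S true = G.b * (G.a * (G.b * (G.a * G.S true))) := by
          simp only [mul_assoc]
      _ = _ := by
          rw [G.aS1, G.bS0, ← mul_assoc G.a, G.aS0, ← mul_assoc, G.bS1, mul_assoc]
  have htS0 : G.tinv * G.S false = G.S false * (G.a * G.c) := by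
    unfold tinv
    calc G.b * G.a * (G.b * G.a) * G.S false = G.b * (G.a * (G.b * (G.a * G.S false))) := by
          simp only [mul_assoc]
      _ = _ := by
          rw [G.aS0, G.bS1, ← mul_assoc G.a, G.aS1, ← mul_assoc, G.bS0, mul_assoc]
  have hrS0 : G.r * G.S false = G.S true := by unfold r; rw [mul_assoc, G.dS0, G.aS0]
  have hrS1 : G.r * G.S true = G.S false * G.b := by
    unfold r; rw [mul_assoc, G.dS1, ← mul_assoc, G.aS1]
  have hcd : G.c * G.d = G.b := by rw [← G.cb, ← mul_assoc, G.cc, one_mul]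
  apply G.ext_S
  · calc G.S false * (G.t - 1) * star (G.S false) * G.S false
        = G.S false * (G.t - 1) * (star (G.S false) * G.S false) := by simp only [mul_assoc]
      _ = G.S false * (G.t - 1) := by rw [G.SS, mul_one]
      _ = G.S false * G.t - G.S false := by rw [mul_sub, mul_one]
      _ = (G.tinv * G.r * G.tinv * (G.d * G.a) - 1) * G.S false := by
        rw [sub_mul, one_mul]
        congr 1
        symm
        calc G.tinv * G.r * G.tinv * (G.d * G.a) * G.S false
            = G.tinv * (G.r * (G.tinv * (G.d * G.a * G.S false))) := by simp only [mul_assoc]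
          _ = G.tinv * (G.r * (G.S true * (G.c * G.a) * G.b)) := by
              rw [hdaS0, ← mul_assoc G.tinv (G.S true), htS1]
          _ = G.tinv * (G.S false * G.b * ((G.c * G.a) * G.b)) := by
              rw [mul_assoc (G.S true), ← mul_assoc G.r, hrS1]
          _ = G.S false * (G.a * G.c) * G.b * ((G.c * G.a) * G.b) := by
              rw [← mul_assoc G.tinv (G.S false * G.b), ← mul_assoc G.tinv (G.S false), htS0]
          _ = G.S false * (G.a * (G.c * G.b * G.c) * G.a * G.b) := by simp only [mul_assoc]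
          _ = G.S false * G.t := by
              have : G.c * G.b * G.c = G.b := by
                rw [mul_assoc, G.bc, hcd]
              rw [this]
              unfold t
              simp only [mul_assoc]
  · calc G.S false * (G.t - 1) * star (G.S false) * G.S true
        = G.S false * (G.t - 1) * (star (G.S false) * G.S true) := by simp only [mul_assoc]
      _ = 0 := by rw [G.S01, mul_zero]
      _ = (G.tinv * G.r * G.tinv * (G.d * G.a) - 1) * G.S true := by
        rw [sub_mul, one_mul]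
        symm
        rw [sub_eq_zero]
        calc G.tinv * G.r * G.tinv * (G.d * G.a) * G.S true
            = G.tinv * (G.r * (G.tinv * (G.d * G.a * G.S true))) := by simp only [mul_assoc]
          _ = G.tinv * (G.r * (G.S false * (G.a * G.c))) := by
              rw [hdaS1, htS0]
          _ = G.tinv * (G.S true * (G.a * G.c)) := by
              rw [← mul_assoc G.r, hrS0]
          _ = G.S true * (G.c * G.a) * (G.a * G.c) := by
              rw [← mul_assoc, htS1]
          _ = G.S true * (G.c * (G.a * G.a) * G.c) := by simp only [mul_assoc]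
          _ = G.S true := by rw [G.aa, mul_one, G.cc, mul_one]

theorem conj_mem {u : List Bool} {z x y : B} (hz : G.Sw u * z * star (G.Sw u) ∈ G.A)
    (hx : x ∈ G.A0) (hy : y ∈ G.A0) : G.Sw u * (x * z * y) * star (G.Sw u) ∈ G.A := by
  obtain ⟨h, hh, e⟩ := G.selfrep_word hx u
  obtain ⟨k, hk, e'⟩ := G.selfrep_star hy u
  have : G.Sw u * (x * z * y) * star (G.Sw u) = h * (G.Sw u * z * star (G.Sw u)) * k := by
    calc G.Sw u * (x * z * y) * star (G.Sw u)
        = (G.Sw u * x) * z * (y * star (G.Sw u)) := by simp only [mul_assoc]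
      _ = h * (G.Sw u * z * star (G.Sw u)) * k := by rw [e, e']; simp only [mul_assoc]
  rw [this]
  exact G.A.mul_mem (G.A.mul_mem (G.A0_le hh) hz) (G.A0_le hk)

theorem diag_mem (u : List Bool) : G.Sw u * (G.t - 1) * star (G.Sw u) ∈ G.A := by
  induction u using List.reverseRecOn with
  | nil =>
    simp only [Sw_nil, star_one, mul_one, one_mul]
    exact G.A.sub_mem (G.A0_le G.t_mem) G.A.one_mem
  | append_singleton u i ih =>
    have h0 : G.Sw u * (G.S false * (G.t - 1) * star (G.S false)) * star (G.Sw u) ∈ G.A := by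
      rw [G.t0_eq]
      have h1 := G.conj_mem ih (x := -(G.tinv * G.r * G.tinv)) (y := G.d * G.a)
        (G.A0.neg_mem (G.A0.mul_mem (G.A0.mul_mem G.tinv_mem G.r_mem) G.tinv_mem))
        (G.A0.mul_mem G.d_mem G.a_mem)
      have h2 := G.conj_mem ih (x := G.tinv) (y := 1) G.tinv_mem G.A0.one_mem
      have := G.A.sub_mem h1 h2
      convert this using 1
      noncomm_ring
    have hS : G.Sw (u ++ [i]) = G.Sw u * G.S i := by rw [G.Sw_append]; simp
    rw [hS]
    cases i
    · have : G.Sw u * G.S false * (G.t - 1) * star (G.Sw u * G.S false)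
          = G.Sw u * (G.S false * (G.t - 1) * star (G.S false)) * star (G.Sw u) := by
        rw [star_mul]; simp only [mul_assoc]
      rw [this]; exact h0
    · have : G.Sw u * G.S true * (G.t - 1) * star (G.Sw u * G.S true)
          = G.Sw u * (G.a * (G.S false * (G.t - 1) * star (G.S false)) * G.a)
            * star (G.Sw u) := by
        rw [star_mul, ← G.aS0, star_mul, G.sa]; simp only [mul_assoc]
      rw [this]
      exact G.conj_mem h0 G.a_mem G.a_mem

theorem t1_mem_pull_A (n : ℕ) : G.t - 1 ∈ G.pull n (Subalgebra.toSubmodule G.A) := by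
  refine ⟨G.A.sub_mem (G.A0_le G.t_mem) G.A.one_mem, fun u w hu hw => ?_⟩
  obtain ⟨g, hg, e⟩ := G.transit u w (by rw [hu, hw])
  rw [e, star_mul, ← mul_assoc]
  exact G.A.mul_mem (G.diag_mem u) (G.A0_le (G.star_mem_A0 hg))

theorem fincodim_pull (n : ℕ) {M J : Submodule ℂ B}
    (hM : ∃ F : Submodule ℂ B, FiniteDimensional ℂ F ∧ Subalgebra.toSubmodule G.A ≤ M ⊔ F)
    (h : ∀ y ∈ M, ∀ u w : List Bool, u.length = n → w.length = n →
      G.Sw u * y * star (G.Sw w) ∈ J) :
    ∃ F : Submodule ℂ B, FiniteDimensional ℂ F ∧ Subalgebra.toSubmodule G.A ≤ J ⊔ F := by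
  induction n generalizing J with
  | zero =>
    obtain ⟨F, hF, hle⟩ := hM
    refine ⟨F, hF, hle.trans (sup_le_sup_right ?_ _)⟩
    intro y hy
    simpa using h y hy [] [] rfl rfl
  | succ n ih =>
    let φ : Bool → Bool → B →ₗ[ℂ] B := fun i j =>
      (LinearMap.mulLeft ℂ (G.S i)).comp (LinearMap.mulRight ℂ (star (G.S j)))
    have hφ : ∀ i j y, φ i j y = G.S i * y * star (G.S j) := by
      intro i j y; simp [φ, mul_assoc]
    have key : ∀ i j, ∃ F : Submodule ℂ B, FiniteDimensional ℂ F ∧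
        Subalgebra.toSubmodule G.A ≤ J.comap (φ i j) ⊔ F := by
      intro i j
      refine ih (J := J.comap (φ i j)) ?_
      intro y hy u w hu hw
      rw [Submodule.mem_comap, hφ]
      have := h y hy (i :: u) (j :: w) (by simp [hu]) (by simp [hw])
      simpa [mul_assoc] using this
    choose F hF hle using key
    refine ⟨⨆ i, ⨆ j, (F i j).map (φ i j), ?_, ?_⟩
    · infer_instance
    · intro x hx
      have hx' : x = φ false false (star (G.S false) * x * G.S false)
          + φ false true (star (G.S false) * x * G.S true)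
          + φ true false (star (G.S true) * x * G.S false)
          + φ true true (star (G.S true) * x * G.S true) := by
        simp only [hφ]
        calc x = (G.S false * star (G.S false) + G.S true * star (G.S true)) * x
            * (G.S false * star (G.S false) + G.S true * star (G.S true)) := by
              rw [G.sum, one_mul, mul_one]
          _ = _ := by noncomm_ring
      have hm : ∀ i j, φ i j (star (G.S i) * x * G.S j) ∈
          J ⊔ ⨆ i, ⨆ j, (F i j).map (φ i j) := by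
        intro i j
        have h1 : star (G.S i) * x * G.S j ∈ J.comap (φ i j) ⊔ F i j :=
          hle i j (G.compress hx i j)
        obtain ⟨y, hy, f, hf, e⟩ := Submodule.mem_sup.1 h1
        rw [← e, map_add]
        refine Submodule.add_mem _ (Submodule.mem_sup_left hy) (Submodule.mem_sup_right ?_)
        exact Submodule.mem_iSup_of_mem i (Submodule.mem_iSup_of_mem j
          (Submodule.mem_map_of_mem hf))
      rw [hx']
      exact Submodule.add_mem _ (Submodule.add_mem _ (Submodule.add_mem _ (hm _ _) (hm _ _))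
        (hm _ _)) (hm _ _)

end top

section cstar

variable [NormedAlgebra ℂ B] [StarModule ℂ B] [CStarRing B] [Nontrivial B]

theorem t_unitary : G.t ∈ unitary B := by
  have hs : star G.t = G.tinv := by
    unfold t tinv
    simp only [star_mul, G.sa, G.sb]
  constructor
  · rw [hs, G.tinv_mul_t]
  · rw [hs, G.t_mul_tinv]

theorem norm_tpow (n : ℕ) : ‖G.t ^ n‖ = 1 :=
  CStarRing.norm_of_mem_unitary (pow_mem G.t_unitary n)

theorem power_trick {J : Submodule ℂ B} (hJ : G.IsIdl J) (h : (G.t - 1) * (G.t - 1) ∈ J) :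
    G.t - 1 ∈ J := by
  have h1 : ∀ n : ℕ, G.t ^ n - 1 - (n : ℂ) • (G.t - 1) ∈ J := by
    intro n
    induction n with
    | zero => simp
    | succ n ih =>
      have e : G.t ^ (n + 1) - 1 - ((n + 1 : ℕ) : ℂ) • (G.t - 1)
          = G.t * (G.t ^ n - 1 - (n : ℂ) • (G.t - 1))
            + (n : ℂ) • ((G.t - 1) * (G.t - 1)) := by
        rw [pow_succ']
        push_cast
        simp only [mul_sub, sub_mul, mul_smul_comm, smul_sub, add_smul, one_smul,
          mul_one, one_mul]
        abel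
      rw [e]
      exact J.add_mem (hJ.mul_left _ G.t_mem _ ih) (J.smul_mem _ h)
  have h2 : ∀ n : ℕ, (G.t - 1) - ((n : ℂ) + 1)⁻¹ • (G.t ^ (n + 1) - 1) ∈ J := by
    intro n
    have hn : ((n : ℂ) + 1) ≠ 0 := by
      have : ((n + 1 : ℕ) : ℂ) ≠ 0 := Nat.cast_ne_zero.2 (Nat.succ_ne_zero n)
      simpa using this
    have := J.smul_mem (-((n : ℂ) + 1)⁻¹) (h1 (n + 1))
    convert this using 1
    push_cast
    generalize G.t ^ (n + 1) - 1 = X
    rw [smul_sub, smul_smul, neg_mul, inv_mul_cancel₀ hn, neg_smul, neg_smul, one_smul]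
    abel
  have h3 : Tendsto (fun n : ℕ => (G.t - 1) - ((n : ℂ) + 1)⁻¹ • (G.t ^ (n + 1) - 1)) atTop
      (𝓝 (G.t - 1)) := by
    have : Tendsto (fun n : ℕ => ((n : ℂ) + 1)⁻¹ • (G.t ^ (n + 1) - 1)) atTop (𝓝 0) := by
      refine squeeze_zero_norm (a := fun n : ℕ => ((n : ℝ) + 1)⁻¹ * 2) ?_ ?_
      · intro n
        rw [norm_smul]
        have hb : ‖G.t ^ (n + 1) - 1‖ ≤ 2 := by
          calc ‖G.t ^ (n + 1) - 1‖ ≤ ‖G.t ^ (n + 1)‖ + ‖(1 : B)‖ := norm_sub_le _ _
            _ = 2 := by rw [G.norm_tpow, CStarRing.norm_one]; norm_num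
        have hc : ‖((n : ℂ) + 1)⁻¹‖ = ((n : ℝ) + 1)⁻¹ := by
          rw [norm_inv]
          congr 1
          have : ((n : ℂ) + 1) = ((n + 1 : ℕ) : ℂ) := by push_cast; ring
          rw [this, Complex.norm_natCast]; push_cast; ring
        rw [hc]
        exact mul_le_mul_of_nonneg_left hb (by positivity)
      · have := (tendsto_one_div_add_atTop_nhds_zero_nat (𝕜 := ℝ)).mul_const 2
        simpa [one_div] using this
    simpa using tendsto_const_nhds.sub this
  exact hJ.closed.mem_of_tendsto h3 (Filter.Eventually.of_forall h2)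

/-- If a closed ideal contains an element with a right invertible entry, it has finite
codimension. -/
theorem fincodim_of_entry {J : Submodule ℂ B} (hJ : G.IsIdl J) {x y : B} (hx : x ∈ J)
    (hy : y ∈ G.A) {v w : List Bool} (hvw : v.length = w.length)
    (hxy : star (G.Sw v) * x * G.Sw w * y = 1) :
    ∃ F : Submodule ℂ B, FiniteDimensional ℂ F ∧ Subalgebra.toSubmodule G.A ≤ J ⊔ F := by
  set n := v.length with hn
  have hN := G.isIdl_pull G.isIdl_A n
  have hM := G.isIdl_pull hJ n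
  have ht := G.t1_mem_pull_A n
  have hyt : y * (G.t - 1) ∈ G.pull n (Subalgebra.toSubmodule G.A) := hN.mul_left' hy ht
  have h2 : (G.t - 1) * (G.t - 1) ∈ G.pull n J := by
    refine ⟨G.A.mul_mem ht.1 ht.1, fun u s hu hs => ?_⟩
    have e : G.Sw u * ((G.t - 1) * (G.t - 1)) * star (G.Sw s)
        = (G.Sw u * (G.t - 1) * star (G.Sw v)) * x * (G.Sw w * (y * (G.t - 1)) * star (G.Sw s)) := by
      calc G.Sw u * ((G.t - 1) * (G.t - 1)) * star (G.Sw s)
          = G.Sw u * ((G.t - 1) * (star (G.Sw v) * x * G.Sw w * y) * (G.t - 1))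
            * star (G.Sw s) := by rw [hxy, mul_one]
        _ = _ := by simp only [mul_assoc]
    rw [e]
    exact hJ.mul_right' (hyt.2 w s hvw.symm hs) (hJ.mul_left' (ht.2 u v hu rfl) hx)
  have h3 := G.power_trick hM h2
  exact G.fincodim_pull n (G.fincodim hM h3) (fun y hy u w hu hw => hy.2 u w hu hw)

/-! ### scalars along the ray `000...` -/

/-- all finite words in the generators -/
def W : Submonoid B := Submonoid.closure G.gens

theorem A0_eq_span : Subalgebra.toSubmodule G.A0 = Submodule.span ℂ (G.W : Set B) :=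
  Algebra.adjoin_eq_span _ _

theorem S0pow (m : ℕ) : G.S false ^ m = G.Sw (List.replicate m false) := by
  induction m with
  | zero => simp
  | succ m ih => rw [pow_succ', ih, List.replicate_succ, Sw_cons]

theorem gen_word (u : List Bool) : ∀ g : B, g = 1 ∨ g = G.a ∨ g = G.b ∨ g = G.c ∨ g = G.d →
    ∃ u' : List Bool, u'.length = u.length + 2 ∧ g * G.Sw u * G.S false ^ 2 = G.Sw u' := by
  induction u with
  | nil =>
    rintro g (rfl | rfl | rfl | rfl | rfl)
    · exact ⟨[false, false], rfl, by simp [pow_two]⟩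
    · exact ⟨[true, false], rfl, by simp [pow_two, ← mul_assoc, G.aS0]⟩
    · exact ⟨[false, true], rfl, by simp [pow_two, ← mul_assoc, G.bS0]; rw [mul_assoc, G.aS0]⟩
    · exact ⟨[false, true], rfl, by simp [pow_two, ← mul_assoc, G.cS0]; rw [mul_assoc, G.aS0]⟩
    · exact ⟨[false, false], rfl, by simp [pow_two, ← mul_assoc, G.dS0]⟩
  | cons i u ih =>
    have step : ∀ g : B, g = 1 ∨ g = G.a ∨ g = G.b ∨ g = G.c ∨ g = G.d →
        ∃ j : Bool, ∃ h : B, (h = 1 ∨ h = G.a ∨ h = G.b ∨ h = G.c ∨ h = G.d) ∧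
          g * G.S i = G.S j * h := by
      rintro g (rfl | rfl | rfl | rfl | rfl)
      · exact ⟨i, 1, Or.inl rfl, by simp⟩
      · cases i
        · exact ⟨true, 1, Or.inl rfl, by simp [G.aS0]⟩
        · exact ⟨false, 1, Or.inl rfl, by simp [G.aS1]⟩
      · cases i
        · exact ⟨false, G.a, by tauto, G.bS0⟩
        · exact ⟨true, G.c, by tauto, G.bS1⟩
      · cases i
        · exact ⟨false, G.a, by tauto, G.cS0⟩
        · exact ⟨true, G.d, by tauto, G.cS1⟩
      · cases i
        · exact ⟨false, 1, by tauto, by simp [G.dS0]⟩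
        · exact ⟨true, G.b, by tauto, G.dS1⟩
    intro g hg
    obtain ⟨j, h, hh, e⟩ := step g hg
    obtain ⟨u', hu', e'⟩ := ih h hh
    refine ⟨j :: u', by simp [hu'], ?_⟩
    calc g * G.Sw (i :: u) * G.S false ^ 2 = (g * G.S i) * G.Sw u * G.S false ^ 2 := by
          simp only [Sw_cons, mul_assoc]
      _ = G.S j * (h * G.Sw u * G.S false ^ 2) := by rw [e]; simp only [mul_assoc]
      _ = G.Sw (j :: u') := by rw [e', Sw_cons]

theorem word_word {g : B} (hg : g ∈ G.W) : ∀ u : List Bool, ∃ m : ℕ, ∃ u' : List Bool,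
    u'.length = u.length + m ∧ g * G.Sw u * G.S false ^ m = G.Sw u' := by
  refine Submonoid.closure_induction
    (motive := fun g _ => ∀ u : List Bool, ∃ m : ℕ, ∃ u' : List Bool,
    u'.length = u.length + m ∧ g * G.Sw u * G.S false ^ m = G.Sw u') ?_ ?_ ?_ hg
  · intro g hg u
    refine ⟨2, ?_⟩
    apply G.gen_word u g
    rcases hg with rfl | rfl | rfl | rfl <;> tauto
  · intro u
    exact ⟨0, u, by simp⟩
  · intro x y _ _ hx hy u
    obtain ⟨m, u', hu', e⟩ := hy u
    obtain ⟨m', u'', hu'', e'⟩ := hx u'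
    refine ⟨m + m', u'', by omega, ?_⟩
    calc x * y * G.Sw u * G.S false ^ (m + m')
        = x * (y * G.Sw u * G.S false ^ m) * G.S false ^ m' := by
          rw [pow_add]; simp only [mul_assoc]
      _ = G.Sw u'' := by rw [e, e']

/-- compression along the ray -/
def kap (m : ℕ) (z : B) : B := star (G.S false ^ m) * z * G.S false ^ m

theorem kap_add' (m k : ℕ) (z : B) : G.kap (m + k) z = G.kap k (G.kap m z) := by
  unfold kap
  rw [pow_add, star_mul]
  simp only [mul_assoc]

theorem kap_add (m : ℕ) (x y : B) : G.kap m (x + y) = G.kap m x + G.kap m y := by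
  unfold kap; noncomm_ring

theorem kap_smul (m : ℕ) (c : ℂ) (y : B) : G.kap m (c • y) = c • G.kap m y := by
  unfold kap; rw [mul_smul_comm, smul_mul_assoc]

theorem kap_sub (m : ℕ) (x y : B) : G.kap m (x - y) = G.kap m x - G.kap m y := by
  unfold kap; noncomm_ring

theorem star_S0pow_mul (m : ℕ) : star (G.S false ^ m) * G.S false ^ m = 1 := by
  rw [S0pow]; exact G.star_Sw_mul_self _

theorem kap_one (m : ℕ) : G.kap m 1 = 1 := by
  unfold kap; rw [mul_one, G.star_S0pow_mul]

theorem norm_Sw (v : List Bool) : ‖G.Sw v‖ = 1 := by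
  have h := CStarRing.norm_star_mul_self (x := G.Sw v)
  rw [G.star_Sw_mul_self, CStarRing.norm_one] at h
  nlinarith [norm_nonneg (G.Sw v)]

theorem norm_kap_le (m : ℕ) (z : B) : ‖G.kap m z‖ ≤ ‖z‖ := by
  unfold kap
  have h1 : ‖G.S false ^ m‖ = 1 := by rw [S0pow]; exact G.norm_Sw _
  calc ‖star (G.S false ^ m) * z * G.S false ^ m‖
      ≤ ‖star (G.S false ^ m) * z‖ * ‖G.S false ^ m‖ := norm_mul_le _ _
    _ ≤ ‖star (G.S false ^ m)‖ * ‖z‖ * ‖G.S false ^ m‖ := by gcongr; exact norm_mul_le _ _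
    _ = ‖z‖ := by rw [norm_star, h1]; ring

theorem kap_word {g : B} (hg : g ∈ G.W) : ∃ m0 : ℕ, ∃ c : ℂ, ∀ m ≥ m0, G.kap m g = c • 1 := by
  obtain ⟨m0, u', hu', e⟩ := G.word_word hg []
  have h0 : ∃ c : ℂ, G.kap m0 g = c • 1 := by
    have : G.kap m0 g = star (G.Sw (List.replicate m0 false)) * G.Sw u' := by
      unfold kap
      rw [mul_assoc, ← e]
      simp [S0pow]
    rw [this]
    rcases G.star_Sw_mul (List.replicate m0 false) u' (by simp [hu']) with h | h
    · exact ⟨0, by rw [h, zero_smul]⟩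
    · exact ⟨1, by rw [h, one_smul]⟩
  obtain ⟨c, hc⟩ := h0
  refine ⟨m0, c, fun m hm => ?_⟩
  obtain ⟨k, rfl⟩ := Nat.exists_eq_add_of_le hm
  rw [kap_add', hc, kap_smul, kap_one]

theorem kap_A0 {z : B} (hz : z ∈ G.A0) : ∃ m0 : ℕ, ∃ c : ℂ, ∀ m ≥ m0, G.kap m z = c • 1 := by
  have hz' : z ∈ Submodule.span ℂ (G.W : Set B) := by rw [← G.A0_eq_span]; exact hz
  refine Submodule.span_induction
    (p := fun z _ => ∃ m0 : ℕ, ∃ c : ℂ, ∀ m ≥ m0, G.kap m z = c • 1) ?_ ?_ ?_ ?_ hz'
  · intro g hg; exact G.kap_word hg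
  · exact ⟨0, 0, fun m _ => by simp [kap]⟩
  · rintro x y _ _ ⟨m1, c1, h1⟩ ⟨m2, c2, h2⟩
    refine ⟨max m1 m2, c1 + c2, fun m hm => ?_⟩
    rw [kap_add, h1 m (le_trans (le_max_left _ _) hm), h2 m (le_trans (le_max_right _ _) hm),
      add_smul]
  · rintro r x _ ⟨m1, c1, h1⟩
    refine ⟨m1, r * c1, fun m hm => ?_⟩
    rw [kap_smul, h1 m hm, smul_smul]

theorem kap_A {z : B} (hz : z ∈ G.A) {ε : ℝ} (hε : 0 < ε) :
    ∃ m0 : ℕ, ∃ c : ℂ, ∀ m ≥ m0, ‖G.kap m z - c • 1‖ ≤ ε := by
  have hz' : z ∈ closure (G.A0 : Set B) := hz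
  obtain ⟨y, hy, hyz⟩ := Metric.mem_closure_iff.1 hz' ε hε
  obtain ⟨m0, c, h⟩ := G.kap_A0 hy
  refine ⟨m0, c, fun m hm => ?_⟩
  rw [← h m hm, ← kap_sub]
  refine (G.norm_kap_le _ _).trans ?_
  rw [← dist_eq_norm]
  exact hyz.le

/-! ### the isometry `R` -/

/-- `1/√2` -/
def s2 : ℂ := (((Real.sqrt 2)⁻¹ : ℝ) : ℂ)

theorem s2_mul_self : s2 * s2 = 1 / 2 := by
  unfold s2
  rw [← Complex.ofReal_mul, ← mul_inv, Real.mul_self_sqrt (by norm_num)]
  push_cast; norm_num

theorem star_s2 : star s2 = s2 := by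
  unfold s2; exact Complex.conj_ofReal _

theorem norm_s2 : ‖s2‖ = (Real.sqrt 2)⁻¹ := by
  unfold s2
  rw [Complex.norm_real, Real.norm_of_nonneg (by positivity)]

/-- the averaging isometry -/
def R : B := s2 • (G.S false + G.S true)

theorem star_R_mul (x : B) : star G.R * x * G.R
    = (1 / 2 : ℂ) • (star (G.S false) * x * G.S false + star (G.S false) * x * G.S true
      + star (G.S true) * x * G.S false + star (G.S true) * x * G.S true) := by
  unfold R
  rw [star_smul, star_s2, smul_mul_assoc, smul_mul_assoc, mul_smul_comm, smul_smul, s2_mul_self]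
  congr 1
  rw [star_add]
  noncomm_ring

theorem star_R_mul_R : star G.R * G.R = 1 := by
  have := G.star_R_mul 1
  simp only [mul_one] at this
  rw [this, G.SS, G.SS, G.S01, G.S10]
  rw [add_zero, add_zero, ← two_smul ℂ, smul_smul]
  norm_num

theorem star_Rpow_mul (k : ℕ) : star (G.R ^ k) * G.R ^ k = 1 := by
  induction k with
  | zero => simp
  | succ k ih =>
    rw [pow_succ, star_mul, mul_assoc, ← mul_assoc (star (G.R ^ k)), ih, one_mul, G.star_R_mul_R]

theorem norm_Rpow (k : ℕ) : ‖G.R ^ k‖ = 1 := by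
  have h := CStarRing.norm_star_mul_self (x := G.R ^ k)
  rw [G.star_Rpow_mul, CStarRing.norm_one] at h
  nlinarith [norm_nonneg (G.R ^ k)]

theorem aR : G.a * G.R = G.R := by
  unfold R
  rw [mul_smul_comm, mul_add, G.aS0, G.aS1, add_comm]

theorem aRpow (k : ℕ) : G.a * G.R ^ (k + 1) = G.R ^ (k + 1) := by
  rw [pow_succ', ← mul_assoc, G.aR]

theorem norm_S (i : Bool) : ‖G.S i‖ = 1 := by
  have := G.norm_Sw [i]; simpa using this

theorem norm_gen_R_le {g : B} (hg : g = G.b ∨ g = G.c ∨ g = G.d) (k : ℕ) :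
    ‖g * G.R ^ (k + 1) - G.R ^ (k + 1)‖ ≤ ((Real.sqrt 2)⁻¹) ^ k * 2 := by
  induction k generalizing g with
  | zero =>
    have hgn : ‖g‖ = 1 := by
      have hu : g ∈ unitary B := by
        rcases hg with rfl | rfl | rfl
        · exact ⟨by rw [G.sb, G.bb], by rw [G.sb, G.bb]⟩
        · exact ⟨by rw [G.sc, G.cc], by rw [G.sc, G.cc]⟩
        · exact ⟨by rw [G.sd, G.dd], by rw [G.sd, G.dd]⟩
      exact CStarRing.norm_of_mem_unitary hu
    calc ‖g * G.R ^ (0 + 1) - G.R ^ (0 + 1)‖
        ≤ ‖g * G.R ^ (0 + 1)‖ + ‖G.R ^ (0 + 1)‖ := norm_sub_le _ _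
      _ ≤ ‖g‖ * ‖G.R ^ (0 + 1)‖ + ‖G.R ^ (0 + 1)‖ := by gcongr; exact norm_mul_le _ _
      _ = _ := by rw [hgn, G.norm_Rpow]; norm_num
  | succ k ih =>
    have key : ∃ g0 g1 : B, (g0 = 1 ∨ g0 = G.a) ∧ (g1 = G.b ∨ g1 = G.c ∨ g1 = G.d) ∧
        g * G.S false = G.S false * g0 ∧ g * G.S true = G.S true * g1 := by
      rcases hg with rfl | rfl | rfl
      · exact ⟨G.a, G.c, by tauto, by tauto, G.bS0, G.bS1⟩
      · exact ⟨G.a, G.d, by tauto, by tauto, G.cS0, G.cS1⟩
      · exact ⟨1, G.b, by tauto, by tauto, by rw [G.dS0, mul_one], G.dS1⟩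
    obtain ⟨g0, g1, hg0, hg1, e0, e1⟩ := key
    have hg0' : g0 * G.R ^ (k + 1) = G.R ^ (k + 1) := by
      rcases hg0 with rfl | rfl
      · rw [one_mul]
      · exact G.aRpow k
    have e : g * G.R ^ (k + 1 + 1) - G.R ^ (k + 1 + 1)
        = s2 • (G.S true * (g1 * G.R ^ (k + 1) - G.R ^ (k + 1))) := by
      rw [pow_succ' G.R (k + 1), ← mul_assoc]
      have : g * G.R = s2 • (G.S false * g0 + G.S true * g1) := by
        unfold R
        rw [mul_smul_comm, mul_add, e0, e1]
      rw [this, smul_mul_assoc, add_mul, mul_assoc, hg0']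
      conv_lhs => rw [show G.R * G.R ^ (k + 1) = s2 • ((G.S false + G.S true) * G.R ^ (k + 1)) by
        conv_lhs => rw [R]
        rw [smul_mul_assoc]; rfl]
      rw [← smul_sub]
      congr 1
      noncomm_ring
    rw [e, norm_smul, norm_s2]
    calc (Real.sqrt 2)⁻¹ * ‖G.S true * (g1 * G.R ^ (k + 1) - G.R ^ (k + 1))‖
        ≤ (Real.sqrt 2)⁻¹ * (‖G.S true‖ * ‖g1 * G.R ^ (k + 1) - G.R ^ (k + 1)‖) := by
          gcongr; exact norm_mul_le _ _
      _ ≤ (Real.sqrt 2)⁻¹ * (1 * (((Real.sqrt 2)⁻¹) ^ k * 2)) := by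
          rw [G.norm_S]
          gcongr
          exact ih hg1
      _ = ((Real.sqrt 2)⁻¹) ^ (k + 1) * 2 := by ring

theorem R_A0 {x : B} (hx : x ∈ G.A0) :
    ∃ c : ℂ, Tendsto (fun k => x * G.R ^ k - c • G.R ^ k) atTop (𝓝 0) := by
  have hs : (Real.sqrt 2)⁻¹ < 1 := by
    apply inv_lt_one_of_one_lt₀
    exact Real.one_lt_sqrt_two
  have hlim : Tendsto (fun k : ℕ => ((Real.sqrt 2)⁻¹) ^ k * 2) atTop (𝓝 0) := by
    have := (tendsto_pow_atTop_nhds_zero_of_lt_one (by positivity) hs).mul_const 2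
    simpa using this
  have hgen : ∀ g : B, (g = G.b ∨ g = G.c ∨ g = G.d) →
      ∃ c : ℂ, Tendsto (fun k => g * G.R ^ k - c • G.R ^ k) atTop (𝓝 0) := by
    intro g hg
    refine ⟨1, ?_⟩
    rw [← tendsto_add_atTop_iff_nat 1]
    refine squeeze_zero_norm (fun k => ?_) hlim
    rw [one_smul]
    exact G.norm_gen_R_le hg k
  refine G.A0_induction
    (p := fun x => ∃ c : ℂ, Tendsto (fun k => x * G.R ^ k - c • G.R ^ k) atTop (𝓝 0))
    ?_ ?_ ?_ ?_ ?_ ?_ ?_ hx
  · refine ⟨1, ?_⟩
    rw [← tendsto_add_atTop_iff_nat 1]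
    have : (fun k : ℕ => G.a * G.R ^ (k + 1) - (1 : ℂ) • G.R ^ (k + 1)) = fun _ => 0 := by
      funext k; rw [G.aRpow, one_smul, sub_self]
    rw [this]; exact tendsto_const_nhds
  · exact hgen _ (by tauto)
  · exact hgen _ (by tauto)
  · exact hgen _ (by tauto)
  · intro r
    refine ⟨r, ?_⟩
    have : (fun k : ℕ => algebraMap ℂ B r * G.R ^ k - r • G.R ^ k) = fun _ => 0 := by
      funext k; rw [← Algebra.smul_def, sub_self]
    rw [this]; exact tendsto_const_nhds
  · rintro x y ⟨c1, h1⟩ ⟨c2, h2⟩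
    refine ⟨c1 + c2, ?_⟩
    have := h1.add h2
    rw [add_zero] at this
    refine this.congr (fun k => ?_)
    rw [add_mul, add_smul]; abel
  · rintro x y _ _ ⟨c1, h1⟩ ⟨c2, h2⟩
    refine ⟨c1 * c2, ?_⟩
    have h3 : Tendsto (fun k => x * (y * G.R ^ k - c2 • G.R ^ k)) atTop (𝓝 (x * 0)) :=
      h2.const_mul x
    have h4 := h3.add (h1.const_smul c2)
    rw [mul_zero, smul_zero, add_zero] at h4
    refine h4.congr (fun k => ?_)
    rw [mul_sub, smul_sub, mul_smul_comm, smul_smul, mul_comm c2 c1, mul_assoc]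
    abel

theorem R_A {x : B} (hx : x ∈ G.A) {ε : ℝ} (hε : 0 < ε) :
    ∃ c : ℂ, ∃ k0 : ℕ, ∀ k ≥ k0, ‖x * G.R ^ k - c • G.R ^ k‖ ≤ ε := by
  have hx' : x ∈ closure (G.A0 : Set B) := hx
  obtain ⟨y, hy, hyz⟩ := Metric.mem_closure_iff.1 hx' (ε / 2) (by positivity)
  obtain ⟨c, h⟩ := G.R_A0 hy
  have h' := (tendsto_zero_iff_norm_tendsto_zero.1 h).eventually
    (Iic_mem_nhds (show (0 : ℝ) < ε / 2 by positivity))
  obtain ⟨k0, hk0⟩ := eventually_atTop.1 h'
  refine ⟨c, k0, fun k hk => ?_⟩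
  have e : x * G.R ^ k - c • G.R ^ k = (x - y) * G.R ^ k + (y * G.R ^ k - c • G.R ^ k) := by
    rw [sub_mul]; abel
  rw [e]
  calc ‖(x - y) * G.R ^ k + (y * G.R ^ k - c • G.R ^ k)‖
      ≤ ‖(x - y) * G.R ^ k‖ + ‖y * G.R ^ k - c • G.R ^ k‖ := norm_add_le _ _
    _ ≤ ‖x - y‖ * ‖G.R ^ k‖ + ε / 2 := by
        gcongr
        · exact norm_mul_le _ _
        · exact hk0 k hk
    _ ≤ ε := by
        rw [G.norm_Rpow, ← dist_eq_norm]; linarith

/-- all entries die along the ray -/
def Zr (x : B) : Prop := ∀ v w : List Bool, v.length = w.length →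
  Tendsto (fun m => G.kap m (star (G.Sw v) * x * G.Sw w)) atTop (𝓝 0)

theorem Zr_R {x : B} (h : G.Zr x) : G.Zr (star G.R * x * G.R) := by
  intro v w hvw
  have hij : ∀ i j, Tendsto (fun m => G.kap m (star (G.Sw v) * (star (G.S i) * x * G.S j) * G.Sw w))
      atTop (𝓝 0) := by
    intro i j
    have := h (i :: v) (j :: w) (by simp [hvw])
    refine this.congr (fun m => ?_)
    simp only [Sw_cons, star_mul, mul_assoc]
  have h4 := (((((hij false false).add (hij false true)).add (hij true false)).add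
    (hij true true)).const_smul (1 / 2 : ℂ))
  simp only [add_zero, smul_zero] at h4
  refine h4.congr (fun m => ?_)
  rw [G.star_R_mul]
  simp only [mul_smul_comm, smul_mul_assoc, mul_add, add_mul, kap_smul, kap_add]

theorem Zr_Rpow {x : B} (h : G.Zr x) (k : ℕ) : G.Zr (star (G.R ^ k) * x * G.R ^ k) := by
  induction k with
  | zero => simpa using h
  | succ k ih =>
    have : star (G.R ^ (k + 1)) * x * G.R ^ (k + 1)
        = star G.R * (star (G.R ^ k) * x * G.R ^ k) * G.R := by
      rw [pow_succ, star_mul]; simp only [mul_assoc]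
    rw [this]
    exact G.Zr_R ih

theorem exists_entry [CompleteSpace B] {x : B} (hx : x ∈ G.A) {c0 : ℂ} (hc0 : c0 ≠ 0) {k : ℕ}
    (hk : ‖x * G.R ^ k - c0 • G.R ^ k‖ ≤ ‖c0‖ / 2) :
    ∃ v w : List Bool, v.length = w.length ∧ ∃ y ∈ G.A, star (G.Sw v) * x * G.Sw w * y = 1 := by
  by_contra hcon
  push Not at hcon
  have hZ : G.Zr x := by
    intro v w hvw
    rw [tendsto_zero_iff_norm_tendsto_zero]
    rw [Metric.tendsto_atTop]
    intro ε hε
    obtain ⟨m0, c, hm⟩ := G.kap_A (G.compress_word hx v w hvw) (ε := ε / 4) (by positivity)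
    refine ⟨m0, fun m hm' => ?_⟩
    have h1 := hm m hm'
    have hc : ‖c‖ ≤ ε / 4 := by
      by_contra hlt
      push Not at hlt
      have hcne : c ≠ 0 := by
        intro h0; rw [h0, norm_zero] at hlt; linarith
      set z := G.kap m (star (G.Sw v) * x * G.Sw w) with hz
      have hzA : z ∈ G.A := by
        have := G.compress_word (G.compress_word hx v w hvw) (List.replicate m false)
          (List.replicate m false) rfl
        rw [hz]; unfold kap; rw [G.S0pow]; exact this
      have hzeq : z = star (G.Sw (v ++ List.replicate m false)) * x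
          * G.Sw (w ++ List.replicate m false) := by
        rw [hz]; unfold kap; rw [G.S0pow, G.Sw_append, G.Sw_append, star_mul]
        simp only [mul_assoc]
      have hn : ‖1 - c⁻¹ • z‖ < 1 := by
        have e : 1 - c⁻¹ • z = -(c⁻¹ • (z - c • 1)) := by
          rw [smul_sub, smul_smul, inv_mul_cancel₀ hcne, one_smul]; abel
        rw [e, norm_neg, norm_smul, norm_inv]
        have hcpos : 0 < ‖c‖ := norm_pos_iff.2 hcne
        rw [inv_mul_lt_iff₀ hcpos, mul_one]
        exact lt_of_le_of_lt h1 hlt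
      have : CompleteSpace G.A := G.isClosed_A.completeSpace_coe
      let z' : G.A := ⟨z, hzA⟩
      have hn' : ‖(1 : G.A) - c⁻¹ • z'‖ < 1 := hn
      have hu : IsUnit (1 - ((1 : G.A) - c⁻¹ • z')) := isUnit_one_sub_of_norm_lt_one hn'
      rw [sub_sub_cancel] at hu
      obtain ⟨y, hy⟩ := hu.exists_right_inv
      have hy' : (c⁻¹ • z) * (y : B) = 1 := by
        have := congrArg (Subtype.val) hy
        simpa [z'] using this
      apply hcon (v ++ List.replicate m false) (w ++ List.replicate m false) (by simp [hvw])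
        (c⁻¹ • (y : B)) (G.A.smul_mem y.2 _)
      rw [← hzeq, mul_smul_comm, ← smul_mul_assoc]
      exact hy'
    rw [dist_zero_right, norm_norm]
    calc ‖G.kap m (star (G.Sw v) * x * G.Sw w)‖
        ≤ ‖G.kap m (star (G.Sw v) * x * G.Sw w) - c • 1‖ + ‖c • (1 : B)‖ := by
          simpa using norm_add_le (G.kap m (star (G.Sw v) * x * G.Sw w) - c • 1) (c • (1 : B))
      _ ≤ ε / 4 + ε / 4 := by
          gcongr
          rw [norm_smul, CStarRing.norm_one, mul_one]; exact hc
      _ < ε := by linarith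
  have h1 := G.Zr_Rpow hZ k [] [] rfl
  simp only [Sw_nil, star_one, one_mul, mul_one] at h1
  have h2 : ∀ m, ‖c0‖ / 2 ≤ ‖G.kap m (star (G.R ^ k) * x * G.R ^ k)‖ := by
    intro m
    have e : star (G.R ^ k) * (x * G.R ^ k - c0 • G.R ^ k) = star (G.R ^ k) * x * G.R ^ k - c0 • 1 := by
      rw [mul_sub, mul_smul_comm, G.star_Rpow_mul, mul_assoc]
    have h3 : ‖star (G.R ^ k) * x * G.R ^ k - c0 • 1‖ ≤ ‖c0‖ / 2 := by
      rw [← e]
      calc ‖star (G.R ^ k) * (x * G.R ^ k - c0 • G.R ^ k)‖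
          ≤ ‖star (G.R ^ k)‖ * ‖x * G.R ^ k - c0 • G.R ^ k‖ := norm_mul_le _ _
        _ ≤ 1 * (‖c0‖ / 2) := by rw [norm_star, G.norm_Rpow]; gcongr
        _ = _ := one_mul _
    have h4 := (G.norm_kap_le m _).trans h3
    rw [kap_sub, kap_smul, kap_one] at h4
    have h5 : ‖c0 • (1 : B)‖ = ‖c0‖ := by rw [norm_smul, CStarRing.norm_one, mul_one]
    have h6 := norm_sub_norm_le (c0 • (1 : B)) (G.kap m (star (G.R ^ k) * x * G.R ^ k))
    rw [norm_sub_rev, h5] at h6
    linarith
  have h3 := (tendsto_zero_iff_norm_tendsto_zero.1 h1)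
  have h4 : ‖c0‖ / 2 ≤ 0 := ge_of_tendsto h3 (Filter.Eventually.of_forall h2)
  have : 0 < ‖c0‖ := norm_pos_iff.2 hc0
  linarith

/-- Abstract form of the main theorem. -/
theorem abstract_main [CompleteSpace B]
    (hdet : ∀ x ∈ G.A, x ≠ 0 → ∃ v w : List Bool, v.length = w.length ∧ ∃ c0 : ℂ, c0 ≠ 0 ∧
      ∃ k : ℕ, ‖star (G.Sw v) * x * G.Sw w * G.R ^ k - c0 • G.R ^ k‖ ≤ ‖c0‖ / 2)
    {J : Submodule ℂ B} (hJ : G.IsIdl J) (hne : J ≠ ⊥) :
    ∃ F : Submodule ℂ B, FiniteDimensional ℂ F ∧ Subalgebra.toSubmodule G.A ≤ J ⊔ F := by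
  obtain ⟨x, hx, hx0⟩ := Submodule.exists_mem_ne_zero_of_ne_bot hne
  have hxA : x ∈ G.A := hJ.le hx
  obtain ⟨v, w, hvw, c0, hc0, k, hk⟩ := hdet x hxA hx0
  obtain ⟨v', w', hvw', y, hy, e⟩ := G.exists_entry (G.compress_word hxA v w hvw) hc0 hk
  refine G.fincodim_of_entry hJ hx hy (v := v ++ v') (w := w ++ w') (by simp [hvw, hvw']) ?_
  rw [← e, Sw_append, Sw_append, star_mul]
  simp only [mul_assoc]

end cstar

end GSys

end Pool.Agent.Lib.MP_759ce5_an
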