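import Pool.Agent.Lib.MP_759ce5_an.Meas
import Pool.Agent.Lib.MP_759ce5_an.Abstract

open MeasureTheory Filter Topology
open scoped ENNReal

noncomputable section

namespace Pool.Agent.Lib.MP_759ce5_an

/-- The Hilbert space. -/
abbrev HH : Type := Lp ℂ 2 mu

/-- Koopman operator of a generator. -/
def U (g : Gen) : HH →L[ℂ] HH :=
  (Lp.compMeasurePreservingₗᵢ ℂ (act g) (mp_act g)).toContinuousLinearMap

theorem U_coe (g : Gen) (f : HH) : U g f =ᵐ[mu] f ∘ act g :=
  Lp.coeFn_compMeasurePreserving f (mp_act g)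

/-- `√2` on the cylinder of words with first letter `i`, composed with the shift. -/
def sfun (i : Bool) (f : Bdry → ℂ) (x : Bdry) : ℂ :=
  if x 0 = i then ((Real.sqrt 2 : ℝ) : ℂ) * f (tail x) else 0

theorem sfun_congr (i : Bool) {f g : Bdry → ℂ} (h : f =ᵐ[mu] g) : sfun i f =ᵐ[mu] sfun i g := by
  have := mp_tail.quasiMeasurePreserving.ae_eq_comp h
  filter_upwards [this] with x hx
  simp only [Function.comp] at hx
  simp only [sfun, hx]

theorem measurable_sfun (i : Bool) {f : Bdry → ℂ} (hf : Measurable f) : Measurable (sfun i f) := by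
  have h0 : MeasurableSet {x : Bdry | x 0 = i} :=
    measurableSet_eq_fun (measurable_pi_apply 0) measurable_const
  exact Measurable.ite h0 ((hf.comp measurable_tail).const_mul _) measurable_const

theorem eLpNorm_sfun (i : Bool) {f : Bdry → ℂ} (hf : Measurable f) :
    eLpNorm (sfun i f) 2 mu = eLpNorm f 2 mu := by
  rw [eLpNorm_eq_lintegral_rpow_enorm_toReal (by norm_num) (by norm_num),
    eLpNorm_eq_lintegral_rpow_enorm_toReal (by norm_num) (by norm_num)]
  congr 1
  rw [lintegral_mu (F := fun x => ‖sfun i f x‖ₑ ^ (ENNReal.toReal 2))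
    ((measurable_sfun i hf).enorm.pow_const _)]
  have hsame : ∀ w, ‖sfun i f (cons i w)‖ₑ ^ (ENNReal.toReal 2)
      = 2 * ‖f w‖ₑ ^ (ENNReal.toReal 2) := by
    intro w
    have h2 : ‖((Real.sqrt 2 : ℝ) : ℂ)‖ₑ ^ (2 : ℝ) = 2 := by
      have h3 : ‖((Real.sqrt 2 : ℝ) : ℂ)‖ₑ = ENNReal.ofReal (Real.sqrt 2) := by
        rw [← ofReal_norm, Complex.norm_real, Real.norm_of_nonneg (Real.sqrt_nonneg _)]
      rw [h3, ENNReal.ofReal_rpow_of_nonneg (Real.sqrt_nonneg _) (by norm_num)]
      norm_num
    simp only [sfun, cons_zero, tail_cons, if_true, enorm_mul]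
    rw [ENNReal.mul_rpow_of_nonneg _ _ (by norm_num)]
    simp only [ENNReal.toReal_ofNat]
    rw [h2]
  have hdiff : ∀ j w, j ≠ i → ‖sfun i f (cons j w)‖ₑ ^ (ENNReal.toReal 2) = 0 := by
    intro j w hj
    simp [sfun, hj]
  cases i
  · simp only [hsame, hdiff true _ (by decide)]
    rw [lintegral_const_mul' _ _ (by norm_num), ← mul_assoc, ENNReal.inv_mul_cancel (by norm_num)
      (by norm_num)]
    simp
  · simp only [hsame, hdiff false _ (by decide)]
    rw [lintegral_const_mul' _ _ (by norm_num), ← mul_assoc, ENNReal.inv_mul_cancel (by norm_num)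
      (by norm_num)]
    simp

theorem memLp_sfun (i : Bool) (f : HH) : MemLp (sfun i f) 2 mu := by
  refine ⟨(measurable_sfun i (Lp.stronglyMeasurable f).measurable).aestronglyMeasurable, ?_⟩
  rw [eLpNorm_sfun i (Lp.stronglyMeasurable f).measurable]
  exact Lp.eLpNorm_lt_top f

/-- The Cuntz isometries, as linear isometries. -/
def Sli (i : Bool) : HH →ₗᵢ[ℂ] HH where
  toFun f := (memLp_sfun i f).toLp _
  map_add' f g := by
    apply Lp.ext
    refine (MemLp.coeFn_toLp _).trans ?_
    refine (sfun_congr i (Lp.coeFn_add f g)).trans ?_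
    refine EventuallyEq.trans ?_ (Lp.coeFn_add _ _).symm
    filter_upwards [MemLp.coeFn_toLp (memLp_sfun i f), MemLp.coeFn_toLp (memLp_sfun i g)] with x h1 h2
    simp only [Pi.add_apply, h1, h2, sfun]
    split_ifs
    · ring
    · simp
  map_smul' c f := by
    apply Lp.ext
    refine (MemLp.coeFn_toLp _).trans ?_
    refine (sfun_congr i (Lp.coeFn_smul c f)).trans ?_
    refine EventuallyEq.trans ?_ (Lp.coeFn_smul _ _).symm
    filter_upwards [MemLp.coeFn_toLp (memLp_sfun i f)] with x h1
    simp only [Pi.smul_apply, h1, sfun, RingHom.id_apply, smul_eq_mul]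
    split_ifs
    · ring
    · simp
  norm_map' f := by
    simp only [LinearMap.coe_mk, AddHom.coe_mk]
    rw [Lp.norm_toLp, eLpNorm_sfun i (Lp.stronglyMeasurable f).measurable, Lp.norm_def]

/-- The Cuntz isometries. -/
def S (i : Bool) : HH →L[ℂ] HH := (Sli i).toContinuousLinearMap

theorem S_coe (i : Bool) (f : HH) : S i f =ᵐ[mu] sfun i f := MemLp.coeFn_toLp (memLp_sfun i f)

theorem U_comp_S_coe (g : Gen) (i : Bool) (f : HH) : U g (S i f) =ᵐ[mu] sfun i f ∘ act g :=
  (U_coe g (S i f)).trans ((mp_act g).quasiMeasurePreserving.ae_eq_comp (S_coe i f))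

theorem S_comp_U_coe (g : Gen) (i : Bool) (f : HH) : S i (U g f) =ᵐ[mu] sfun i (f ∘ act g) :=
  (S_coe i _).trans (sfun_congr i (U_coe g f))

theorem U_S_eq {g : Gen} {i j : Bool} (h : ∀ w, act g (cons i w) = cons j w)
    (hx : ∀ x : Bdry, (act g x) 0 = j → x 0 = i) :
    U g * S j = S i := by
  refine ContinuousLinearMap.ext fun f => Lp.ext ?_
  refine (U_comp_S_coe g j f).trans (EventuallyEq.trans ?_ (S_coe i f).symm)
  refine Eventually.of_forall fun x => ?_
  simp only [Function.comp, sfun]
  by_cases hi : x 0 = i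
  · have : x = cons i (tail x) := by rw [← hi, cons_tail]
    rw [if_pos hi, this, h]
    simp
  · rw [if_neg hi, if_neg (fun h' => hi (hx x h'))]

theorem U_S_eq' {g h : Gen} {i : Bool} (hh : ∀ w, act g (cons i w) = cons i (act h w))
    (hx : ∀ x : Bdry, (act g x) 0 = i → x 0 = i) :
    U g * S i = S i * U h := by
  refine ContinuousLinearMap.ext fun f => Lp.ext ?_
  refine (U_comp_S_coe g i f).trans (EventuallyEq.trans ?_ (S_comp_U_coe h i f).symm)
  refine Eventually.of_forall fun x => ?_
  simp only [Function.comp, sfun]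
  by_cases hi : x 0 = i
  · have : x = cons i (tail x) := by rw [← hi, cons_tail]
    rw [if_pos hi, this, hh]
    simp
  · rw [if_neg hi, if_neg (fun h' => hi (hx x h'))]

theorem aS0 : U .a * S false = S true := by
  refine U_S_eq (fun w => by rw [act_a_cons]; rfl) (fun x hx => ?_)
  rcases bdry_cases x with ⟨w, rfl⟩ | ⟨w, rfl⟩
  · simp [act_a_cons] at hx
  · rfl

theorem aS1 : U .a * S true = S false := by
  refine U_S_eq (fun w => by rw [act_a_cons]; rfl) (fun x hx => ?_)
  rcases bdry_cases x with ⟨w, rfl⟩ | ⟨w, rfl⟩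
  · rfl
  · simp [act_a_cons] at hx

theorem bS0 : U .b * S false = S false * U .a :=
  U_S_eq' act_b_cons_false (fun _ hx => hx)
theorem bS1 : U .b * S true = S true * U .c :=
  U_S_eq' act_b_cons_true (fun _ hx => hx)
theorem cS0 : U .c * S false = S false * U .a :=
  U_S_eq' act_c_cons_false (fun _ hx => hx)
theorem cS1 : U .c * S true = S true * U .d :=
  U_S_eq' act_c_cons_true (fun _ hx => hx)
theorem dS0 : U .d * S false = S false :=
  U_S_eq act_d_cons_false (fun _ hx => hx)
theorem dS1 : U .d * S true = S true * U .b :=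
  U_S_eq' act_d_cons_true (fun _ hx => hx)

theorem U_mul_U (g h k : Gen) (hk : ∀ x, act h (act g x) = act k x) : U g * U h = U k := by
  refine ContinuousLinearMap.ext fun f => Lp.ext ?_
  refine (U_coe g (U h f)).trans ?_
  refine ((mp_act g).quasiMeasurePreserving.ae_eq_comp (U_coe h f)).trans ?_
  refine EventuallyEq.trans ?_ (U_coe k f).symm
  refine Eventually.of_forall fun x => ?_
  simp only [Function.comp, hk]

theorem U_mul_self (g : Gen) : U g * U g = 1 := by
  refine ContinuousLinearMap.ext fun f => Lp.ext ?_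
  refine (U_coe g (U g f)).trans ?_
  refine ((mp_act g).quasiMeasurePreserving.ae_eq_comp (U_coe g f)).trans ?_
  refine Eventually.of_forall fun x => ?_
  simp only [Function.comp]
  rw [act_involutive g x]; rfl

theorem act_bc_apply (n : ℕ) : ∀ x : Bdry,
    (act .c (act .b x) n = act .d x n ∧ act .b (act .c x) n = act .d x n) ∧
    (act .d (act .c x) n = act .b x n ∧ act .c (act .d x) n = act .b x n) ∧
    (act .b (act .d x) n = act .c x n ∧ act .d (act .b x) n = act .c x n) := by
  induction n with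
  | zero =>
    intro x
    rcases bdry_cases x with ⟨w, rfl⟩ | ⟨w, rfl⟩ <;>
      simp [act_b_cons_false, act_b_cons_true, act_c_cons_false, act_c_cons_true,
        act_d_cons_false, act_d_cons_true]
  | succ n ih =>
    intro x
    rcases bdry_cases x with ⟨w, rfl⟩ | ⟨w, rfl⟩
    · simp [act_b_cons_false, act_c_cons_false, act_d_cons_false, act_act_apply]
    · obtain ⟨⟨h1, h2⟩, ⟨h3, h4⟩, ⟨h5, h6⟩⟩ := ih w
      simp [act_b_cons_true, act_c_cons_true, act_d_cons_true, h1, h2, h3, h4, h5, h6]

theorem bc : U .b * U .c = U .d := U_mul_U _ _ _ fun x => by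
  funext n; exact (act_bc_apply n x).1.1
theorem cb : U .c * U .b = U .d := U_mul_U _ _ _ fun x => by
  funext n; exact (act_bc_apply n x).1.2

theorem star_S_mul_self (i : Bool) : star (S i) * S i = 1 := by
  rw [ContinuousLinearMap.star_eq_adjoint]
  exact (ContinuousLinearMap.norm_map_iff_adjoint_comp_self (S i)).1 (fun f => (Sli i).norm_map f)

theorem star_U (g : Gen) : star (U g) = U g := by
  have h1 : star (U g) * U g = 1 := by
    rw [ContinuousLinearMap.star_eq_adjoint]
    exact (ContinuousLinearMap.norm_map_iff_adjoint_comp_self (U g)).1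
      (fun f => (Lp.compMeasurePreservingₗᵢ ℂ (act g) (mp_act g)).norm_map f)
  calc star (U g) = star (U g) * (U g * U g) := by rw [U_mul_self, mul_one]
    _ = U g := by rw [← mul_assoc, h1, one_mul]

theorem star_S_mul_S {i j : Bool} (hij : i ≠ j) : star (S i) * S j = 0 := by
  refine ContinuousLinearMap.ext fun f => ?_
  refine ext_inner_left ℂ fun g => ?_
  rw [ContinuousLinearMap.star_eq_adjoint, mul_apply_eq_comp,
    ContinuousLinearMap.adjoint_inner_right]
  simp only [zero_apply, inner_zero_right]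
  rw [L2.inner_def]
  have : (fun x => inner ℂ ((S i g : HH) x) ((S j f : HH) x)) =ᵐ[mu] fun _ => (0 : ℂ) := by
    filter_upwards [S_coe i g, S_coe j f] with x h1 h2
    rw [h1, h2]
    unfold sfun
    by_cases hx : x 0 = i
    · rw [if_neg (fun h => hij (hx.symm.trans h)), inner_zero_right]
    · rw [if_neg hx, inner_zero_left]
  rw [integral_congr_ae this, integral_zero]

/-- The constant function one. -/
def e : HH := Lp.const 2 mu (1 : ℂ)

theorem e_coe : e =ᵐ[mu] fun _ => (1 : ℂ) := Lp.coeFn_const 2 mu (1 : ℂ)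

theorem norm_e : ‖e‖ = 1 := by
  unfold e
  rw [Lp.norm_const' _ _ _ (by norm_num) (by norm_num)]
  simp

theorem U_e (g : Gen) : U g e = e := by
  apply Lp.ext
  refine (U_coe g e).trans (EventuallyEq.trans ?_ e_coe.symm)
  exact (mp_act g).quasiMeasurePreserving.ae_eq_comp e_coe

/-- continuous functions to `L²` -/
abbrev toL : C(Bdry, ℂ) →L[ℂ] HH := ContinuousMap.toLp 2 mu ℂ

theorem continuous_cons (i : Bool) : Continuous (cons i) := by
  refine continuous_pi fun n => ?_
  cases n with
  | zero => exact continuous_const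
  | succ n => exact continuous_apply n

theorem s2_mul_sqrt : GSys.s2 * ((Real.sqrt 2 : ℝ) : ℂ) = 1 := by
  unfold GSys.s2
  rw [← Complex.ofReal_mul, inv_mul_cancel₀ (by positivity)]
  simp

theorem toL_split (f : C(Bdry, ℂ)) :
    toL f = GSys.s2 • (S false (toL (f.comp ⟨cons false, continuous_cons false⟩))
      + S true (toL (f.comp ⟨cons true, continuous_cons true⟩))) := by
  apply Lp.ext
  refine (ContinuousMap.coeFn_toLp mu f).trans ?_
  symm
  refine (Lp.coeFn_smul _ _).trans ?_
  have h1 := Lp.coeFn_add (S false (toL (f.comp ⟨cons false, continuous_cons false⟩)))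
    (S true (toL (f.comp ⟨cons true, continuous_cons true⟩)))
  have h2 := (S_coe false (toL (f.comp ⟨cons false, continuous_cons false⟩))).trans
    (sfun_congr false (ContinuousMap.coeFn_toLp mu (f.comp ⟨cons false, continuous_cons false⟩)))
  have h3 := (S_coe true (toL (f.comp ⟨cons true, continuous_cons true⟩))).trans
    (sfun_congr true (ContinuousMap.coeFn_toLp mu (f.comp ⟨cons true, continuous_cons true⟩)))
  filter_upwards [h1, h2, h3] with x h1 h2 h3
  simp only [Pi.smul_apply, h1, Pi.add_apply, h2, h3, smul_eq_mul]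
  rcases bdry_cases x with ⟨w, rfl⟩ | ⟨w, rfl⟩
  · simp only [sfun, cons_zero, if_true, tail_cons, ContinuousMap.comp_apply,
      ContinuousMap.coe_mk, Bool.false_eq_true, if_false, add_zero]
    rw [← mul_assoc, s2_mul_sqrt, one_mul]
  · simp only [sfun, cons_zero, if_true, tail_cons, ContinuousMap.comp_apply,
      ContinuousMap.coe_mk, Bool.true_eq_false, if_false, zero_add]
    rw [← mul_assoc, s2_mul_sqrt, one_mul]

theorem toL_const (c : ℂ) : toL (ContinuousMap.const _ c) = c • e := by
  apply Lp.ext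
  refine (ContinuousMap.coeFn_toLp mu _).trans ?_
  symm
  refine (Lp.coeFn_smul _ _).trans ?_
  filter_upwards [e_coe] with x hx
  simp [hx]

/-- vectors `S_w e` -/
def Swe : List Bool → HH
  | [] => e
  | i :: w => S i (Swe w)

/-- their span -/
def V : Submodule ℂ HH := Submodule.span ℂ (Set.range Swe)

theorem S_mem_V (i : Bool) {f : HH} (hf : f ∈ V) : S i f ∈ V := by
  refine Submodule.span_induction (p := fun f _ => S i f ∈ V) ?_ ?_ ?_ ?_ hf
  · rintro _ ⟨w, rfl⟩
    exact Submodule.subset_span ⟨i :: w, rfl⟩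
  · simp
  · intro x y _ _ hx hy
    rw [map_add]; exact V.add_mem hx hy
  · intro c x _ hx
    rw [map_smul]; exact V.smul_mem _ hx

theorem toL_mem_V (n : ℕ) : ∀ f : C(Bdry, ℂ), (∀ x y : Bdry, (∀ i < n, x i = y i) → f x = f y) →
    toL f ∈ V := by
  induction n with
  | zero =>
    intro f hf
    have : f = ContinuousMap.const _ (f (fun _ => false)) := by
      ext x; exact hf _ _ (by simp)
    rw [this, toL_const]
    exact V.smul_mem _ (Submodule.subset_span ⟨[], rfl⟩)
  | succ n ih =>
    intro f hf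
    rw [toL_split]
    have hdep : ∀ (i : Bool) (x y : Bdry), (∀ k < n, x k = y k) →
        (f.comp ⟨cons i, continuous_cons i⟩) x = (f.comp ⟨cons i, continuous_cons i⟩) y := by
      intro i x y h
      apply hf
      intro k hk
      cases k with
      | zero => rfl
      | succ k => exact h k (by omega)
    exact V.smul_mem _ (V.add_mem (S_mem_V _ (ih _ (hdep _))) (S_mem_V _ (ih _ (hdep _))))

/-- locally constant functions -/
def LC : StarSubalgebra ℂ C(Bdry, ℂ) where
  carrier := {f | ∃ n : ℕ, ∀ x y : Bdry, (∀ i < n, x i = y i) → f x = f y}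
  mul_mem' := by
    rintro f g ⟨n, hf⟩ ⟨m, hg⟩
    refine ⟨max n m, fun x y h => ?_⟩
    simp only [ContinuousMap.mul_apply]
    rw [hf x y (fun i hi => h i (lt_of_lt_of_le hi (le_max_left _ _))),
      hg x y (fun i hi => h i (lt_of_lt_of_le hi (le_max_right _ _)))]
  add_mem' := by
    rintro f g ⟨n, hf⟩ ⟨m, hg⟩
    refine ⟨max n m, fun x y h => ?_⟩
    simp only [ContinuousMap.add_apply]
    rw [hf x y (fun i hi => h i (lt_of_lt_of_le hi (le_max_left _ _))),
      hg x y (fun i hi => h i (lt_of_lt_of_le hi (le_max_right _ _)))]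
  algebraMap_mem' := fun r => ⟨0, fun x y _ => rfl⟩
  star_mem' := by
    rintro f ⟨n, hf⟩
    refine ⟨n, fun x y h => ?_⟩
    simp only [ContinuousMap.star_apply]
    rw [hf x y h]

theorem LC_dense : LC.topologicalClosure = ⊤ := by
  apply ContinuousMap.starSubalgebra_topologicalClosure_eq_top_of_separatesPoints
  intro x y hxy
  obtain ⟨n, hn⟩ := Function.ne_iff.1 hxy
  let f : C(Bdry, ℂ) := ⟨fun z => if z n then 1 else 0, by
    have : Continuous (fun b : Bool => (if b then (1 : ℂ) else 0)) := continuous_of_discreteTopology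
    exact this.comp (continuous_apply n)⟩
  refine ⟨f, ⟨f, ⟨n + 1, fun x y h => ?_⟩, rfl⟩, ?_⟩
  · change (if x n then (1 : ℂ) else 0) = if y n then 1 else 0
    rw [h n (by omega)]
  · change (if x n then (1 : ℂ) else 0) ≠ if y n then 1 else 0
    cases hx : x n <;> cases hy : y n <;> simp_all

theorem V_dense : V.topologicalClosure = ⊤ := by
  rw [eq_top_iff]
  intro f _
  have h1 : f ∈ closure (Set.range toL) := by
    have := ContinuousMap.toLp_denseRange ℂ mu ℂ (p := 2) (by norm_num)
    exact this f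
  have h2 : Set.range toL ⊆ closure (V : Set HH) := by
    rintro _ ⟨g, rfl⟩
    have hg : g ∈ closure (LC : Set C(Bdry, ℂ)) := by
      have : g ∈ LC.topologicalClosure := by rw [LC_dense]; trivial
      exact this
    exact map_mem_closure toL.continuous hg (fun k hk => by
      obtain ⟨n, hn⟩ := hk
      exact toL_mem_V n k hn)
  have h3 : f ∈ closure (closure (V : Set HH)) := closure_mono h2 h1
  rwa [closure_closure] at h3

theorem V_dense' : Dense (Submodule.span ℂ (Set.range Swe) : Set HH) := by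
  rw [dense_iff_closure_eq]
  have h := V_dense
  have : (V.topologicalClosure : Set HH) = Set.univ := by rw [h]; rfl
  exact this

theorem e_split : e = GSys.s2 • (S false e + S true e) := by
  have h := toL_split (ContinuousMap.const _ 1)
  have h1 : toL (ContinuousMap.const Bdry (1 : ℂ)) = e := by rw [toL_const, one_smul]
  have h2 : ∀ i, (ContinuousMap.const Bdry (1 : ℂ)).comp ⟨cons i, continuous_cons i⟩
      = ContinuousMap.const Bdry 1 := fun i => by ext; rfl
  rw [h2, h2, h1] at h
  exact h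

theorem S_sum : S false * star (S false) + S true * star (S true) = 1 := by
  have hS : ∀ (i : Bool) (y : HH),
      (S false * star (S false) + S true * star (S true)) (S i y) = S i y := by
    intro i y
    have : (S false * star (S false) + S true * star (S true)) * S i = S i := by
      cases i
      · rw [add_mul, mul_assoc, mul_assoc, star_S_mul_self, star_S_mul_S (by decide), mul_one,
          mul_zero, add_zero]
      · rw [add_mul, mul_assoc, mul_assoc, star_S_mul_self, star_S_mul_S (by decide), mul_one,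
          mul_zero, zero_add]
    exact congrArg (fun T : HH →L[ℂ] HH => T y) this
  refine ContinuousLinearMap.ext_on V_dense' ?_
  rintro _ ⟨w, rfl⟩
  cases w with
  | nil =>
    simp only [Swe]
    have h1 : (S false * star (S false) + S true * star (S true)) e = e := by
      conv_lhs => rw [e_split]
      rw [map_smul, map_add, hS, hS, ← e_split]
    rw [h1]; rfl
  | cons i w =>
    simp only [Swe]
    rw [hS]; rfl

/-- The concrete system. -/
def Gs : GSys (HH →L[ℂ] HH) where
  S := S
  a := U .a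
  b := U .b
  c := U .c
  d := U .d
  SS := star_S_mul_self
  S01 := star_S_mul_S (by decide)
  S10 := star_S_mul_S (by decide)
  sum := S_sum
  sa := star_U _
  sb := star_U _
  sc := star_U _
  sd := star_U _
  aa := U_mul_self _
  bb := U_mul_self _
  cc := U_mul_self _
  dd := U_mul_self _
  bc := bc
  cb := cb
  aS0 := aS0
  aS1 := aS1
  bS0 := bS0
  bS1 := bS1
  cS0 := cS0
  cS1 := cS1
  dS0 := dS0
  dS1 := dS1

theorem Swe_eq (w : List Bool) : Swe w = Gs.Sw w e := by
  induction w with
  | nil => rfl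
  | cons i w ih => simp only [Swe, GSys.Sw_cons]; rw [ih]; rfl

theorem Swe_split (w : List Bool) : Swe w = GSys.s2 • (Swe (w ++ [false]) + Swe (w ++ [true])) := by
  induction w with
  | nil => exact e_split
  | cons i w ih =>
    simp only [Swe, List.cons_append]
    conv_lhs => rw [ih]
    rw [map_smul, map_add]

theorem eq_zero_of_inner {x : HH →L[ℂ] HH}
    (h : ∀ v w : List Bool, v.length = w.length → inner ℂ (Swe v) (x (Swe w)) = 0) : x = 0 := by
  have h1 : ∀ n : ℕ, ∀ v w : List Bool, w.length + n = v.length →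
      inner ℂ (Swe v) (x (Swe w)) = 0 := by
    intro n
    induction n with
    | zero => intro v w hvw; exact h v w (by omega)
    | succ n ih =>
      intro v w hvw
      rw [Swe_split w, map_smul, map_add, inner_smul_right, inner_add_right,
        ih v (w ++ [false]) (by simp; omega), ih v (w ++ [true]) (by simp; omega)]
      simp
  have h2 : ∀ n : ℕ, ∀ v w : List Bool, v.length + n = w.length →
      inner ℂ (Swe v) (x (Swe w)) = 0 := by
    intro n
    induction n with
    | zero => intro v w hvw; exact h v w (by omega)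
    | succ n ih =>
      intro v w hvw
      rw [Swe_split v, inner_smul_left, inner_add_left,
        ih (v ++ [false]) w (by simp; omega), ih (v ++ [true]) w (by simp; omega)]
      simp
  have h3 : ∀ v w : List Bool, inner ℂ (Swe v) (x (Swe w)) = 0 := by
    intro v w
    rcases le_total v.length w.length with hle | hle
    · exact h2 (w.length - v.length) v w (by omega)
    · exact h1 (v.length - w.length) v w (by omega)
  refine ContinuousLinearMap.ext_on V_dense' ?_
  rintro _ ⟨w, rfl⟩
  have h4 : x (Swe w) ∈ Vᗮ := by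
    rw [Submodule.mem_orthogonal]
    intro u hu
    refine Submodule.span_induction (p := fun u _ => inner ℂ u (x (Swe w)) = 0) ?_ ?_ ?_ ?_ hu
    · rintro _ ⟨v, rfl⟩; exact h3 v w
    · simp
    · intro a b _ _ ha hb; rw [inner_add_left, ha, hb, add_zero]
    · intro c a _ ha; rw [inner_smul_left, ha, mul_zero]
  have h5 : Vᗮ = ⊥ := (Submodule.topologicalClosure_eq_top_iff).1 V_dense
  rw [h5] at h4
  simpa using h4

theorem R_e : Gs.R e = e := by
  unfold GSys.R
  exact e_split.symm

theorem Rpow_e (k : ℕ) : (Gs.R ^ k) e = e := by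
  induction k with
  | zero => rfl
  | succ k ih =>
    rw [pow_succ]
    change (Gs.R ^ k) (Gs.R e) = e
    rw [R_e, ih]

instance : Nontrivial (HH →L[ℂ] HH) := by
  refine ⟨1, 0, fun h => ?_⟩
  have h1 := congrArg (fun T : HH →L[ℂ] HH => T e) h
  have h2 : e = 0 := h1
  have := norm_e
  rw [h2, norm_zero] at this
  exact zero_ne_one this

theorem hdet (x : HH →L[ℂ] HH) (hx : x ∈ Gs.A) (hx0 : x ≠ 0) :
    ∃ v w : List Bool, v.length = w.length ∧ ∃ c0 : ℂ, c0 ≠ 0 ∧
      ∃ k : ℕ, ‖star (Gs.Sw v) * x * Gs.Sw w * Gs.R ^ k - c0 • Gs.R ^ k‖ ≤ ‖c0‖ / 2 := by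
  have h1 : ∃ v w : List Bool, v.length = w.length ∧ inner ℂ (Swe v) (x (Swe w)) ≠ (0 : ℂ) := by
    by_contra hcon
    push Not at hcon
    exact hx0 (eq_zero_of_inner hcon)
  obtain ⟨v, w, hvw, hne⟩ := h1
  refine ⟨v, w, hvw, inner ℂ (Swe v) (x (Swe w)), hne, ?_⟩
  set c0 : ℂ := inner ℂ (Swe v) (x (Swe w)) with hc0
  set z := star (Gs.Sw v) * x * Gs.Sw w with hz
  have hpos : 0 < ‖c0‖ := norm_pos_iff.2 hne
  obtain ⟨c, k0, hk⟩ := Gs.R_A (Gs.compress_word hx v w hvw) (ε := ‖c0‖ / 4) (by positivity)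
  have hk0 := hk k0 le_rfl
  rw [← hz] at hk0
  refine ⟨k0, ?_⟩
  have hze : inner ℂ e (z e) = c0 := by
    rw [hz, hc0, Swe_eq, Swe_eq]
    change inner ℂ e ((star (Gs.Sw v)) (x (Gs.Sw w e))) = _
    rw [ContinuousLinearMap.star_eq_adjoint, ContinuousLinearMap.adjoint_inner_right]
  have hcc : ‖c0 - c‖ ≤ ‖c0‖ / 4 := by
    have h2 : (z * Gs.R ^ k0 - c • Gs.R ^ k0) e = z e - c • e := by
      change z ((Gs.R ^ k0) e) - c • ((Gs.R ^ k0) e) = _
      rw [Rpow_e]
    have h3 : inner ℂ e (z e - c • e) = c0 - c := by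
      rw [inner_sub_right, hze, inner_smul_right, inner_self_eq_norm_sq_to_K, norm_e]
      simp
    calc ‖c0 - c‖ = ‖inner ℂ e ((z * Gs.R ^ k0 - c • Gs.R ^ k0) e)‖ := by rw [h2, h3]
      _ ≤ ‖e‖ * ‖(z * Gs.R ^ k0 - c • Gs.R ^ k0) e‖ := norm_inner_le_norm _ _
      _ ≤ ‖e‖ * (‖z * Gs.R ^ k0 - c • Gs.R ^ k0‖ * ‖e‖) := by
          gcongr; exact ContinuousLinearMap.le_opNorm _ _
      _ ≤ ‖c0‖ / 4 := by rw [norm_e]; simpa using hk0
  have e1 : z * Gs.R ^ k0 - c0 • Gs.R ^ k0 = (z * Gs.R ^ k0 - c • Gs.R ^ k0)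
      + (c - c0) • Gs.R ^ k0 := by
    rw [sub_smul]; abel
  rw [e1]
  calc ‖(z * Gs.R ^ k0 - c • Gs.R ^ k0) + (c - c0) • Gs.R ^ k0‖
      ≤ ‖z * Gs.R ^ k0 - c • Gs.R ^ k0‖ + ‖(c - c0) • Gs.R ^ k0‖ := norm_add_le _ _
    _ ≤ ‖c0‖ / 4 + ‖c0‖ / 4 := by
        gcongr
        rw [norm_smul, Gs.norm_Rpow, mul_one, norm_sub_rev]; exact hcc
    _ = ‖c0‖ / 2 := by ring

theorem koopman_main {J : Submodule ℂ (HH →L[ℂ] HH)} (hJ : Gs.IsIdl J) (hne : J ≠ ⊥) :
    ∃ F : Submodule ℂ (HH →L[ℂ] HH), FiniteDimensional ℂ F ∧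
      Subalgebra.toSubmodule Gs.A ≤ J ⊔ F :=
  Gs.abstract_main hdet hJ hne

end Pool.Agent.Lib.MP_759ce5_an
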