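import Pool.Agent.Lib.MP_759ce5_an.Tree
open MeasureTheory
noncomputable section
namespace Pool.Agent.Lib.MP_759ce5_an

theorem measurable_cons : Measurable (fun p : Bool × Bdry => cons p.1 p.2) := by
  rw [measurable_pi_iff]
  intro n
  cases n with
  | zero => exact measurable_fst
  | succ n => exact (measurable_pi_apply n).comp measurable_snd

theorem measurable_tail : Measurable tail := by
  rw [measurable_pi_iff]
  intro n
  exact measurable_pi_apply (n + 1)

theorem map_cons : (coin.prod mu).map (fun p : Bool × Bdry => cons p.1 p.2) = mu := by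
  classical
  refine Measure.eq_infinitePi _ ?_
  intro s t ht
  rw [Measure.map_apply measurable_cons (MeasurableSet.pi s.countable_toSet (fun i _ => ht i))]
  let s' : Finset ℕ := s.preimage Nat.succ (Nat.succ_injective.injOn)
  let t0 : Set Bool := if 0 ∈ s then t 0 else Set.univ
  have hpre : (fun p : Bool × Bdry => cons p.1 p.2) ⁻¹' (Set.pi s t)
      = t0 ×ˢ (Set.pi (s' : Set ℕ) (fun n => t (n + 1))) := by
    ext ⟨i, w⟩
    simp only [Set.mem_preimage, Set.mem_pi, Set.mem_prod, t0, s']
    constructor
    · intro h
      constructor
      · split_ifs with h0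
        · exact h 0 h0
        · trivial
      · intro n hn
        have hn' : n + 1 ∈ s := by simpa using hn
        exact h (n + 1) hn'
    · rintro ⟨h0, h1⟩ n hn
      cases n with
      | zero =>
        have hn' : 0 ∈ s := hn
        simpa [hn'] using h0
      | succ n => exact h1 n (by simpa using hn)
  rw [hpre, Measure.prod_prod]
  have h1 : mu (Set.pi (s' : Set ℕ) (fun n => t (n + 1))) = ∏ n ∈ s', coin (t (n + 1)) :=
    Measure.infinitePi_pi _ (fun i _ => ht (i + 1))
  rw [h1]
  by_cases h0 : 0 ∈ s
  · have hs : s = insert 0 (s'.image Nat.succ) := by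
      ext n
      cases n with
      | zero => simp [h0]
      | succ n => simp [s']
    have hni : 0 ∉ s'.image Nat.succ := by simp
    conv_rhs => rw [hs]
    rw [Finset.prod_insert hni, Finset.prod_image (fun x _ y _ h => Nat.succ_injective h)]
    simp [t0, h0]
  · have hs : s = (s'.image Nat.succ) := by
      ext n
      cases n with
      | zero => simp [h0]
      | succ n => simp [s']
    conv_rhs => rw [hs]
    rw [Finset.prod_image (fun x _ y _ h => Nat.succ_injective h)]
    simp only [t0, h0, if_false, measure_univ, one_mul, Nat.succ_eq_add_one]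

theorem mp_cons : MeasurePreserving (fun p : Bool × Bdry => cons p.1 p.2) (coin.prod mu) mu :=
  ⟨measurable_cons, map_cons⟩

theorem mp_tail : MeasurePreserving tail mu mu := by
  refine ⟨measurable_tail, ?_⟩
  rw [← map_cons, Measure.map_map measurable_tail measurable_cons]
  have : tail ∘ (fun p : Bool × Bdry => cons p.1 p.2) = Prod.snd := by
    funext p; rfl
  rw [this, Measure.map_snd_prod, measure_univ, one_smul, map_cons]

theorem coin_eq : coin = (2⁻¹ : ENNReal) • Measure.dirac false + (2⁻¹ : ENNReal) • Measure.dirac true := by
  unfold coin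
  refine Measure.ext_of_singleton fun x => ?_
  rw [PMF.toMeasure_apply_singleton _ _ (measurableSet_singleton x)]
  cases x <;> simp [PMF.uniformOfFintype_apply]

theorem lintegral_mu {F : Bdry → ENNReal} (hF : Measurable F) :
    ∫⁻ x, F x ∂mu = 2⁻¹ * ∫⁻ w, F (cons false w) ∂mu + 2⁻¹ * ∫⁻ w, F (cons true w) ∂mu := by
  rw [← mp_cons.lintegral_comp hF,
    lintegral_prod (fun p : Bool × Bdry => F (cons p.1 p.2)) (hF.comp measurable_cons).aemeasurable,
    coin_eq, lintegral_add_measure, lintegral_smul_measure, lintegral_smul_measure, lintegral_dirac,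
    lintegral_dirac]
  simp

theorem measurable_cons' (i : Bool) : Measurable (cons i) :=
  measurable_cons.comp (measurable_const.prodMk measurable_id)

theorem measurable_act_apply (n : ℕ) : ∀ g : Gen, Measurable (fun x => act g x n) := by
  induction n with
  | zero =>
    intro g
    cases g
    · exact (measurable_of_countable (fun b : Bool => !b)).comp (measurable_pi_apply 0)
    all_goals exact measurable_pi_apply 0
  | succ n ih =>
    have h0 : MeasurableSet {x : Bdry | x 0 = false} :=
      measurableSet_eq_fun (measurable_pi_apply 0) measurable_const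
    intro g
    cases g
    · exact measurable_pi_apply (n + 1)
    · exact Measurable.ite h0 ((ih .a).comp measurable_tail) ((ih .c).comp measurable_tail)
    · exact Measurable.ite h0 ((ih .a).comp measurable_tail) ((ih .d).comp measurable_tail)
    · exact Measurable.ite h0 (measurable_pi_apply (n + 1)) ((ih .b).comp measurable_tail)

theorem measurable_act (g : Gen) : Measurable (act g) :=
  measurable_pi_iff.2 fun n => measurable_act_apply n g

theorem lintegral_act (n : ℕ) : ∀ (F : Bdry → ENNReal), Measurable F →
    (∀ x y : Bdry, (∀ i < n, x i = y i) → F x = F y) → ∀ g : Gen,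
    ∫⁻ x, F (act g x) ∂mu = ∫⁻ x, F x ∂mu := by
  induction n with
  | zero =>
    intro F hF hc g
    have : ∀ x, F (act g x) = F x := fun x => hc _ _ (by simp)
    simp only [this]
  | succ n ih =>
    intro F hF hc g
    have hdep : ∀ (i : Bool) (x y : Bdry), (∀ k < n, x k = y k) → F (cons i x) = F (cons i y) := by
      intro i x y h
      apply hc
      intro k hk
      cases k with
      | zero => rfl
      | succ k => exact h k (by omega)
    have ih' : ∀ (i : Bool) (g : Gen),
        ∫⁻ x, F (cons i (act g x)) ∂mu = ∫⁻ x, F (cons i x) ∂mu := fun i g =>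
      ih (fun x => F (cons i x)) (hF.comp (measurable_cons' i)) (hdep i) g
    rw [lintegral_mu (F := fun x => F (act g x)) (hF.comp (measurable_act g)), lintegral_mu hF]
    cases g
    · simp only [act_a_cons, Bool.not_false, Bool.not_true]
      rw [add_comm]
    · simp only [act_b_cons_false, act_b_cons_true, ih']
    · simp only [act_c_cons_false, act_c_cons_true, ih']
    · simp only [act_d_cons_false, act_d_cons_true, ih']

theorem mp_act (g : Gen) : MeasurePreserving (act g) mu mu := by
  refine ⟨measurable_act g, ?_⟩
  refine Measure.eq_infinitePi _ ?_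
  intro s t ht
  have hm : MeasurableSet (Set.pi (s : Set ℕ) t) :=
    MeasurableSet.pi s.countable_toSet (fun i _ => ht i)
  rw [Measure.map_apply (measurable_act g) hm]
  have h1 : mu (Set.pi (s : Set ℕ) t) = ∏ n ∈ s, coin (t n) :=
    Measure.infinitePi_pi _ (fun i _ => ht i)
  rw [← h1, ← lintegral_indicator_one hm, ← lintegral_indicator_one (measurable_act g hm)]
  have := lintegral_act (s.sup id + 1) (Set.indicator (Set.pi (s : Set ℕ) t) 1)
    (measurable_one.indicator hm) ?_ g
  · rw [← this]; rfl
  · intro x y h
    have : x ∈ Set.pi (s : Set ℕ) t ↔ y ∈ Set.pi (s : Set ℕ) t := by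
      simp only [Set.mem_pi, Finset.mem_coe]
      refine forall_congr' fun i => forall_congr' fun hi => ?_
      rw [h i]
      have : i ≤ s.sup id := Finset.le_sup (f := id) hi
      omega
    by_cases hx : x ∈ Set.pi (s : Set ℕ) t
    · rw [Set.indicator_of_mem hx, Set.indicator_of_mem (this.1 hx)]; rfl
    · rw [Set.indicator_of_notMem hx, Set.indicator_of_notMem (fun h => hx (this.2 h))]

end Pool.Agent.Lib.MP_759ce5_an
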