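import Pool.Agent.Lib.MP_759ce5_an.Koopman

open MeasureTheory Filter
open Pool.Agent.Lib.MP_759ce5_an

noncomputable section

namespace Pool.Agent.Lib.MP_759ce5_an.Support

/-- Every element of the Grigorchuk group preserves the uniform Bernoulli measure, and so does
its inverse. -/
theorem mp_grig_aux {g : Equiv.Perm Bdry} (hg : g ∈ Grig) :
    MeasurePreserving g mu mu ∧ MeasurePreserving (g⁻¹ : Equiv.Perm Bdry) mu mu := by
  refine Subgroup.closure_induction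
    (p := fun (g : Equiv.Perm Bdry) _ => MeasurePreserving g mu mu ∧
      MeasurePreserving (g⁻¹ : Equiv.Perm Bdry) mu mu)
    ?_ ?_ ?_ ?_ hg
  · rintro g (rfl | rfl | rfl | rfl)
    exacts [⟨mp_act _, mp_act _⟩, ⟨mp_act _, mp_act _⟩, ⟨mp_act _, mp_act _⟩,
      ⟨mp_act _, mp_act _⟩]
  · exact ⟨MeasurePreserving.id mu, MeasurePreserving.id mu⟩
  · rintro g h _ _ ⟨hg1, hg2⟩ ⟨hh1, hh2⟩
    refine ⟨hg1.comp hh1, ?_⟩
    rw [mul_inv_rev]
    exact hh2.comp hg2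
  · rintro g _ ⟨h1, h2⟩
    exact ⟨h2, by rw [inv_inv]; exact h1⟩

theorem mp_grig (g : Grig) : MeasurePreserving (g : Equiv.Perm Bdry) mu mu :=
  (mp_grig_aux g.2).1

/-- The operator `ρ(g)` on `L²(∂T, μ)`: `(ρ(g) f)(x) = f(g⁻¹ x)`. -/
def rhoFun (g : Grig) : Lp ℂ 2 mu →L[ℂ] Lp ℂ 2 mu :=
  (Lp.compMeasurePreservingₗᵢ ℂ ((g⁻¹ : Grig) : Equiv.Perm Bdry)
    (mp_grig g⁻¹)).toContinuousLinearMap

theorem rhoFun_coe (g : Grig) (f : Lp ℂ 2 mu) :
    rhoFun g f =ᵐ[mu] fun x => f (((g⁻¹ : Grig) : Equiv.Perm Bdry) x) :=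
  Lp.coeFn_compMeasurePreserving f (mp_grig g⁻¹)

/-- The Koopman representation `ρ` of the Grigorchuk group. -/
def rho : Grig →* (Lp ℂ 2 mu →L[ℂ] Lp ℂ 2 mu) where
  toFun := rhoFun
  map_one' := by
    refine ContinuousLinearMap.ext fun f => Lp.ext ?_
    refine (rhoFun_coe 1 f).trans (Eventually.of_forall fun x => ?_)
    simp
  map_mul' g h := by
    refine ContinuousLinearMap.ext fun f => Lp.ext ?_
    refine (rhoFun_coe (g * h) f).trans ?_
    refine EventuallyEq.symm ((rhoFun_coe g (rhoFun h f)).trans ?_)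
    refine ((mp_grig g⁻¹).quasiMeasurePreserving.ae_eq_comp (rhoFun_coe h f)).trans ?_
    refine Eventually.of_forall fun x => ?_
    simp only [Function.comp]
    rw [mul_inv_rev]
    rfl

/-- `C*_ρ(G)`: the norm closure of `ρ(ℂ[G])` in the bounded operators on `L²(∂T, μ)`. -/
def CstarRho : Subalgebra ℂ (Lp ℂ 2 mu →L[ℂ] Lp ℂ 2 mu) :=
  (Algebra.adjoin ℂ (Set.range rhoFun)).topologicalClosure

/-- The generator as an element of the group. -/
def gen (s : Gen) : Grig := ⟨perm s, by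
  apply Subgroup.subset_closure
  cases s <;> simp⟩

theorem rho_gen (s : Gen) : rho (gen s) = U s := by
  refine ContinuousLinearMap.ext fun f => Lp.ext ?_
  refine (rhoFun_coe (gen s) f).trans (EventuallyEq.trans ?_ (U_coe s f).symm)
  exact Eventually.of_forall fun x => rfl

theorem rho_mem_A0 (g : Grig) : rho g ∈ Gs.A0 := by
  have key : ∀ g (hg : g ∈ Grig), rho ⟨g, hg⟩ ∈ Gs.A0 ∧ rho (⟨g, hg⟩ : Grig)⁻¹ ∈ Gs.A0 := by
    intro g hg
    refine Subgroup.closure_induction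
      (p := fun g hg => rho ⟨g, hg⟩ ∈ Gs.A0 ∧ rho (⟨g, hg⟩ : Grig)⁻¹ ∈ Gs.A0) ?_ ?_ ?_ ?_ hg
    · have h1 : ∀ s : Gen, rho (gen s) ∈ Gs.A0 := by
        intro s
        rw [rho_gen]
        cases s
        exacts [Gs.a_mem, Gs.b_mem, Gs.c_mem, Gs.d_mem]
      have h2 : ∀ s : Gen, (gen s)⁻¹ = gen s := by
        intro s
        apply Subtype.ext
        apply Equiv.ext
        intro x
        rfl
      rintro g (rfl | rfl | rfl | rfl)
      · exact ⟨h1 .a, by have := h1 .a; rw [← h2] at this; exact this⟩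
      · exact ⟨h1 .b, by have := h1 .b; rw [← h2] at this; exact this⟩
      · exact ⟨h1 .c, by have := h1 .c; rw [← h2] at this; exact this⟩
      · exact ⟨h1 .d, by have := h1 .d; rw [← h2] at this; exact this⟩
    · have h1 : rho (1 : Grig) ∈ Gs.A0 := by rw [map_one]; exact Gs.A0.one_mem
      exact ⟨h1, by have : (1 : Grig)⁻¹ = 1 := inv_one
                    rw [← this] at h1; exact h1⟩
    · rintro g h hg hh ⟨hg1, hg2⟩ ⟨hh1, hh2⟩
      have e1 : (⟨g * h, Grig.mul_mem hg hh⟩ : Grig) = (⟨g, hg⟩ : Grig) * ⟨h, hh⟩ := rfl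
      constructor
      · rw [e1, map_mul]; exact Gs.A0.mul_mem hg1 hh1
      · rw [e1, mul_inv_rev, map_mul]; exact Gs.A0.mul_mem hh2 hg2
    · rintro g hg ⟨h1, h2⟩
      have e1 : (⟨g⁻¹, Grig.inv_mem hg⟩ : Grig) = (⟨g, hg⟩ : Grig)⁻¹ := rfl
      constructor
      · rw [e1]; exact h2
      · rw [e1, inv_inv]; exact h1
  exact (key g.1 g.2).1

theorem adjoin_eq_A0 : Algebra.adjoin ℂ (Set.range rhoFun) = Gs.A0 := by
  apply le_antisymm
  · refine Algebra.adjoin_le ?_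
    rintro _ ⟨g, rfl⟩
    exact rho_mem_A0 g
  · refine Algebra.adjoin_le ?_
    have h1 : ∀ s : Gen, U s ∈ Algebra.adjoin ℂ (Set.range rhoFun) := by
      intro s
      apply Algebra.subset_adjoin
      exact ⟨gen s, rho_gen s⟩
    rintro _ (rfl | rfl | rfl | rfl)
    exacts [h1 .a, h1 .b, h1 .c, h1 .d]

theorem CstarRho_eq : CstarRho = Gs.A := by
  unfold CstarRho GSys.A
  rw [adjoin_eq_A0]

/-- **Main theorem.** Every proper image of `C*_ρ(G)` is finite dimensional: for every nonzero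
closed two-sided ideal `I` of `C*_ρ(G)` the quotient `C*_ρ(G)/I` is a finite dimensional complex
vector space. -/
theorem result_aux (I : Ideal CstarRho) (hI : I.IsTwoSided) (hcl : IsClosed (I : Set CstarRho))
    (hne : I ≠ ⊥) : FiniteDimensional ℂ (CstarRho ⧸ I) := by
  have hclA : IsClosed (CstarRho : Set (Lp ℂ 2 mu →L[ℂ] Lp ℂ 2 mu)) := by
    rw [CstarRho_eq]; exact Gs.isClosed_A
  let ι : CstarRho →ₗ[ℂ] (Lp ℂ 2 mu →L[ℂ] Lp ℂ 2 mu) := CstarRho.val.toLinearMap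
  have hι : ∀ x : CstarRho, ι x = (x : Lp ℂ 2 mu →L[ℂ] Lp ℂ 2 mu) := fun _ => rfl
  let I' : Submodule ℂ CstarRho := I.restrictScalars ℂ
  have hI' : ∀ x : CstarRho, x ∈ I' ↔ x ∈ I := fun _ => Iff.rfl
  let J : Submodule ℂ (Lp ℂ 2 mu →L[ℂ] Lp ℂ 2 mu) := I'.map ι
  have hA0 : ∀ x ∈ Gs.A0, x ∈ CstarRho := fun x hx => by
    rw [CstarRho_eq]; exact Gs.A0_le hx
  have hJ : Gs.IsIdl J := by
    refine ⟨?_, ?_, ?_, ?_⟩
    · rintro _ ⟨i, hi, rfl⟩
      have : (i : Lp ℂ 2 mu →L[ℂ] Lp ℂ 2 mu) ∈ Gs.A := by rw [← CstarRho_eq]; exact i.2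
      exact this
    · have h1 : (J : Set (Lp ℂ 2 mu →L[ℂ] Lp ℂ 2 mu)) = Subtype.val '' (I : Set CstarRho) := rfl
      rw [h1]
      exact hclA.isClosedEmbedding_subtypeVal.isClosedMap _ hcl
    · rintro x hx _ ⟨i, hi, rfl⟩
      exact ⟨⟨x, hA0 x hx⟩ * i, I.mul_mem_left _ hi, rfl⟩
    · rintro x hx _ ⟨i, hi, rfl⟩
      exact ⟨i * ⟨x, hA0 x hx⟩, hI.mul_mem_of_left _ hi, rfl⟩
  have hJne : J ≠ ⊥ := by
    obtain ⟨i, hi, hi0⟩ := Submodule.exists_mem_ne_zero_of_ne_bot hne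
    intro hbot
    have h1 : (i : Lp ℂ 2 mu →L[ℂ] Lp ℂ 2 mu) ∈ J := ⟨i, hi, rfl⟩
    rw [hbot, Submodule.mem_bot] at h1
    exact hi0 (Subtype.ext h1)
  obtain ⟨F, hF, hle⟩ := koopman_main hJ hJne
  let F' : Submodule ℂ CstarRho := F.comap ι
  have hF' : FiniteDimensional ℂ F' := by
    let φ : F' →ₗ[ℂ] F := (ι.comp F'.subtype).codRestrict F (fun x => x.2)
    refine Module.Finite.of_injective φ ?_
    intro x y hxy
    have h1 : ι x = ι y :=
      congrArg (fun z : F => (z : Lp ℂ 2 mu →L[ℂ] Lp ℂ 2 mu)) hxy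
    exact Subtype.ext (Subtype.ext h1)
  let q : F' →ₗ[ℂ] (CstarRho ⧸ I) :=
    { toFun := fun x => Submodule.Quotient.mk (x : CstarRho)
      map_add' := fun x y => rfl
      map_smul' := fun c x => rfl }
  refine Module.Finite.of_surjective q ?_
  intro y
  obtain ⟨x, rfl⟩ := Submodule.Quotient.mk_surjective _ y
  have hx : (x : Lp ℂ 2 mu →L[ℂ] Lp ℂ 2 mu) ∈ J ⊔ F := by
    apply hle
    have : (x : Lp ℂ 2 mu →L[ℂ] Lp ℂ 2 mu) ∈ Gs.A := by rw [← CstarRho_eq]; exact x.2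
    exact this
  obtain ⟨j, hj, f, hf, e⟩ := Submodule.mem_sup.1 hx
  obtain ⟨i, hi, rfl⟩ := hj
  have hfx : ι (x - i) = f := by
    rw [map_sub, hι x, ← e]; abel
  refine ⟨⟨x - i, ?_⟩, ?_⟩
  · change ι (x - i) ∈ F
    rw [hfx]; exact hf
  · change Submodule.Quotient.mk (x - i) = Submodule.Quotient.mk x
    rw [Submodule.Quotient.eq]
    have : x - i - x = -i := by abel
    rw [this]
    exact I.neg_mem hi

end Pool.Agent.Lib.MP_759ce5_an.Support
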