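import Mathlib

open MeasureTheory

noncomputable section

namespace Pool.Agent.Lib.MP_759ce5_an

/-- The boundary of the rooted binary tree: infinite words over `{0,1}`, where `false` is the
letter `0` and `true` is the letter `1`. -/
abbrev Bdry : Type := ℕ → Bool

/-- Prepend a letter to an infinite word. -/
def cons (i : Bool) (w : Bdry) : Bdry
  | 0 => i
  | n + 1 => w n

/-- Delete the first letter of an infinite word. -/
def tail (x : Bdry) : Bdry := fun n => x (n + 1)

/-- Names for the four generators of the Grigorchuk group. -/
inductive Gen
  | a | b | c | d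

/-- `act g x n` is the letter number `n` of the infinite word `g(x)`.  The recursion is
`a(0w) = 1w`, `a(1w) = 0w`; `b(0w) = 0 a(w)`, `b(1w) = 1 c(w)`; `c(0w) = 0 a(w)`,
`c(1w) = 1 d(w)`; `d(0w) = 0w`, `d(1w) = 1 b(w)`. -/
def act : Gen → Bdry → ℕ → Bool
  | .a, x, 0 => !(x 0)
  | .a, x, n + 1 => tail x n
  | .b, x, 0 => x 0
  | .b, x, n + 1 => if x 0 = false then act .a (tail x) n else act .c (tail x) n
  | .c, x, 0 => x 0
  | .c, x, n + 1 => if x 0 = false then act .a (tail x) n else act .d (tail x) n
  | .d, x, 0 => x 0
  | .d, x, n + 1 => if x 0 = false then tail x n else act .b (tail x) n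

@[simp] theorem cons_zero (i : Bool) (w : Bdry) : cons i w 0 = i := rfl
@[simp] theorem cons_succ (i : Bool) (w : Bdry) (n : ℕ) : cons i w (n + 1) = w n := rfl
@[simp] theorem tail_cons (i : Bool) (w : Bdry) : tail (cons i w) = w := rfl
theorem cons_tail (x : Bdry) : cons (x 0) (tail x) = x := by
  funext n; cases n <;> rfl

/-! The recursive rules of the problem. -/

theorem act_a_cons (i : Bool) (w : Bdry) : act .a (cons i w) = cons (!i) w := by
  funext n; cases n <;> simp [act]
theorem act_b_cons_false (w : Bdry) : act .b (cons false w) = cons false (act .a w) := by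
  funext n; cases n <;> simp [act]
theorem act_b_cons_true (w : Bdry) : act .b (cons true w) = cons true (act .c w) := by
  funext n; cases n <;> simp [act]
theorem act_c_cons_false (w : Bdry) : act .c (cons false w) = cons false (act .a w) := by
  funext n; cases n <;> simp [act]
theorem act_c_cons_true (w : Bdry) : act .c (cons true w) = cons true (act .d w) := by
  funext n; cases n <;> simp [act]
theorem act_d_cons_false (w : Bdry) : act .d (cons false w) = cons false w := by
  funext n; cases n <;> simp [act]
theorem act_d_cons_true (w : Bdry) : act .d (cons true w) = cons true (act .b w) := by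
  funext n; cases n <;> simp [act]

theorem bdry_cases (x : Bdry) : (∃ w, x = cons false w) ∨ (∃ w, x = cons true w) := by
  cases h : x 0
  · left; exact ⟨tail x, by rw [← h, cons_tail]⟩
  · right; exact ⟨tail x, by rw [← h, cons_tail]⟩

theorem act_act_apply (n : ℕ) : ∀ (g : Gen) (x : Bdry), act g (act g x) n = x n := by
  induction n with
  | zero =>
    intro g x
    rcases bdry_cases x with ⟨w, rfl⟩ | ⟨w, rfl⟩ <;> cases g <;>
      simp [act_a_cons, act_b_cons_false, act_b_cons_true, act_c_cons_false, act_c_cons_true,
        act_d_cons_false, act_d_cons_true]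
  | succ n ih =>
    intro g x
    rcases bdry_cases x with ⟨w, rfl⟩ | ⟨w, rfl⟩ <;> cases g <;>
      simp [act_a_cons, act_b_cons_false, act_b_cons_true, act_c_cons_false, act_c_cons_true,
        act_d_cons_false, act_d_cons_true, ih]

/-- Every generator is an involution. -/
theorem act_involutive (g : Gen) : Function.Involutive (act g) := by
  intro x; funext n; exact act_act_apply n g x

/-- The generators as permutations of the boundary. -/
def perm (g : Gen) : Equiv.Perm Bdry := (act_involutive g).toPerm

/-- The Grigorchuk group, acting on the boundary of the tree. -/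
def Grig : Subgroup (Equiv.Perm Bdry) :=
  Subgroup.closure {perm .a, perm .b, perm .c, perm .d}

/-- The uniform probability measure on `{0,1}`. -/
def coin : Measure Bool := (PMF.uniformOfFintype Bool).toMeasure

instance : IsProbabilityMeasure coin := by unfold coin; infer_instance

/-- The uniform Bernoulli measure on the boundary. -/
def mu : Measure Bdry := Measure.infinitePi (fun _ : ℕ => coin)

instance : IsProbabilityMeasure mu := by unfold mu; infer_instance

end Pool.Agent.Lib.MP_759ce5_an
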